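import Mathlib

/-!
# Faces of polytopes, vertex-facet assignments and free joins

Definitions used in the hand-in for MP_7ca032_co, and general lemmas about faces of joins and of
polytopes given by finitely many inequalities.
-/

set_option autoImplicit false

open Set

namespace Pool.Agent.Helper18.FaceLattice

/-- `P` is a convex polytope: the convex hull of a finite set of points of `ℝ^m`. -/
def IsPolytope {m : ℕ} (P : Set (Fin m → ℝ)) : Prop :=
  ∃ V : Set (Fin m → ℝ), V.Finite ∧ P = convexHull ℝ V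

/-- The dimension of (the affine hull of) a nonempty set. -/
noncomputable def dim {m : ℕ} (P : Set (Fin m → ℝ)) : ℕ :=
  Module.finrank ℝ (vectorSpan ℝ P)

/-- The face lattice of `P`: all exposed faces (the empty face and `P` included), ordered by
inclusion.  (For a polytope every face is exposed.) -/
abbrev Faces {m : ℕ} (P : Set (Fin m → ℝ)) : Type :=
  {F : Set (Fin m → ℝ) // IsExposed ℝ P F}

/-- `v` is a vertex of `P`: a face consisting of one point. -/
def IsVertex {m : ℕ} (P : Set (Fin m → ℝ)) (v : Fin m → ℝ) : Prop :=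
  IsExposed ℝ P {v}

/-- `F` is a facet of `P`: a nonempty face of dimension `dim P - 1`. -/
def IsFacet {m : ℕ} (P F : Set (Fin m → ℝ)) : Prop :=
  F.Nonempty ∧ IsExposed ℝ P F ∧ dim F + 1 = dim P

/-- A vertex-facet assignment of `P`: a matching in the bipartite graph of non-incident pairs
(vertex, facet) covering all the vertices or all the facets. -/
def HasVertexFacetAssignment {m : ℕ} (P : Set (Fin m → ℝ)) : Prop :=
  (∃ f : {v : Fin m → ℝ // IsVertex P v} → {F : Set (Fin m → ℝ) // IsFacet P F},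
      Function.Injective f ∧ ∀ v, v.1 ∉ (f v).1) ∨
  (∃ g : {F : Set (Fin m → ℝ) // IsFacet P F} → {v : Fin m → ℝ // IsVertex P v},
      Function.Injective g ∧ ∀ F, (g F).1 ∉ F.1)

/-- `Q` is the free join of the (nonempty) polytopes `P₁` and `P₂`: the affine span of the union
has dimension `dim P₁ + dim P₂ + 1`, and `Q` is the convex hull of the union. -/
def IsFreeJoinOf {m : ℕ} (Q P₁ P₂ : Set (Fin m → ℝ)) : Prop :=
  IsPolytope P₁ ∧ IsPolytope P₂ ∧ P₁.Nonempty ∧ P₂.Nonempty ∧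
    dim (P₁ ∪ P₂) = dim P₁ + dim P₂ + 1 ∧ Q = convexHull ℝ (P₁ ∪ P₂)

/-- `P` is a free join: it is combinatorially equivalent (isomorphic face lattices) to the free
join of two polytopes (in some `ℝ^n`). -/
def IsFreeJoin {m : ℕ} (P : Set (Fin m → ℝ)) : Prop :=
  ∃ (n : ℕ) (Q P₁ P₂ : Set (Fin n → ℝ)),
    IsFreeJoinOf Q P₁ P₂ ∧ Nonempty (Faces P ≃o Faces Q)

/-! ### Faces of free joins -/

section join

variable {m : ℕ} {Q P₁ P₂ : Set (Fin m → ℝ)}

/-- On a free join there is a linear functional with prescribed directions on both factors and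
prescribed difference. -/
lemma exists_functional {p₁ p₂ : Fin m → ℝ} (h₁ : p₁ ∈ P₁) (h₂ : p₂ ∈ P₂)
    (hdim : dim (P₁ ∪ P₂) = dim P₁ + dim P₂ + 1) (l : (Fin m → ℝ) →ₗ[ℝ] ℝ) (c : ℝ) :
    ∃ l' : (Fin m → ℝ) →ₗ[ℝ] ℝ, (∀ x ∈ P₁, l' (x - p₁) = l (x - p₁)) ∧
      (∀ x ∈ P₂, l' (x - p₂) = 0) ∧ l' (p₂ - p₁) = c := by
  classical
  set V₁ := vectorSpan ℝ P₁ with hV₁
  set V₂ := vectorSpan ℝ P₂ with hV₂
  let T : (V₁ × V₂) × ℝ →ₗ[ℝ] (Fin m → ℝ) :=
    LinearMap.coprod (LinearMap.coprod V₁.subtype V₂.subtype)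
      (LinearMap.toSpanSingleton ℝ (Fin m → ℝ) (p₂ - p₁))
  have hT : ∀ (a : V₁) (b : V₂) (t : ℝ), T ((a, b), t) = a.1 + b.1 + t • (p₂ - p₁) := by
    intro a b t
    simp [T]
  have hrange : vectorSpan ℝ (P₁ ∪ P₂) ≤ LinearMap.range T := by
    rw [vectorSpan_def, Submodule.span_le]
    have key : ∀ x ∈ P₁ ∪ P₂, ∃ a : V₁, ∃ b : V₂, ∃ t : ℝ, x - p₁ = a.1 + b.1 + t • (p₂ - p₁) := by
      rintro x (hx | hx)
      · refine ⟨⟨x - p₁, vsub_mem_vectorSpan ℝ hx h₁⟩, 0, 0, by simp⟩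
      · refine ⟨0, ⟨x - p₂, vsub_mem_vectorSpan ℝ hx h₂⟩, 1, by simp⟩
    rintro _ ⟨x, hx, y, hy, rfl⟩
    obtain ⟨a, b, t, h⟩ := key x hx
    obtain ⟨a', b', t', h'⟩ := key y hy
    refine ⟨((a - a', b - b'), t - t'), ?_⟩
    rw [hT]
    have : (x -ᵥ y : Fin m → ℝ) = (x - p₁) - (y - p₁) := by simp
    simp only [this, h, h', Submodule.coe_sub]
    module
  have hker : LinearMap.ker T = ⊥ := by
    have h3 := LinearMap.finrank_range_add_finrank_ker T
    have h4 := Submodule.finrank_mono hrange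
    have h5 : Module.finrank ℝ ((V₁ × V₂) × ℝ) = dim P₁ + dim P₂ + 1 := by
      simp only [Module.finrank_prod, Module.finrank_self]
      rfl
    have h6 : Module.finrank ℝ (LinearMap.ker T) = 0 := by
      unfold dim at hdim h5
      omega
    exact Submodule.finrank_eq_zero.mp h6
  obtain ⟨L, hL⟩ := T.exists_leftInverse_of_injective hker
  have hL' : ∀ z, L (T z) = z := fun z => by
    have := LinearMap.congr_fun hL z
    simpa using this
  let ℓ : (V₁ × V₂) × ℝ →ₗ[ℝ] ℝ :=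
    LinearMap.coprod (LinearMap.coprod (l.comp V₁.subtype) 0) (LinearMap.toSpanSingleton ℝ ℝ c)
  have hℓ : ∀ (a : V₁) (b : V₂) (t : ℝ), ℓ ((a, b), t) = l a.1 + t * c := by
    intro a b t
    simp [ℓ]
  refine ⟨ℓ.comp L, ?_, ?_, ?_⟩
  · intro x hx
    have h := hT ⟨x - p₁, vsub_mem_vectorSpan ℝ hx h₁⟩ 0 0
    have h' : T ((⟨x - p₁, vsub_mem_vectorSpan ℝ hx h₁⟩, 0), 0) = x - p₁ := by
      rw [h]; simp
    rw [LinearMap.comp_apply, ← h', hL', hℓ, h']
    simp
  · intro x hx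
    have h := hT 0 ⟨x - p₂, vsub_mem_vectorSpan ℝ hx h₂⟩ 0
    have h' : T ((0, ⟨x - p₂, vsub_mem_vectorSpan ℝ hx h₂⟩), 0) = x - p₂ := by
      rw [h]; simp
    rw [LinearMap.comp_apply, ← h', hL', hℓ]
    simp
  · have h := hT 0 0 1
    have h' : T ((0, 0), 1) = p₂ - p₁ := by
      rw [h]; simp
    rw [LinearMap.comp_apply, ← h', hL', hℓ]
    simp

/-- Points of a free join are convex combinations of two points of the factors. -/
lemma exists_of_mem_join (hP₁ : IsPolytope P₁) (hP₂ : IsPolytope P₂) (hn₁ : P₁.Nonempty)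
    (hn₂ : P₂.Nonempty) {x : Fin m → ℝ} (hx : x ∈ convexHull ℝ (P₁ ∪ P₂)) :
    ∃ x₁ ∈ P₁, ∃ x₂ ∈ P₂, ∃ t : ℝ, 0 ≤ t ∧ t ≤ 1 ∧ x = (1 - t) • x₁ + t • x₂ := by
  rw [convexHull_union hn₁ hn₂] at hx
  have e₁ : convexHull ℝ P₁ = P₁ := by
    obtain ⟨V, -, rfl⟩ := hP₁
    exact (convex_convexHull ℝ V).convexHull_eq
  have e₂ : convexHull ℝ P₂ = P₂ := by
    obtain ⟨V, -, rfl⟩ := hP₂
    exact (convex_convexHull ℝ V).convexHull_eq
  rw [e₁, e₂, mem_convexJoin] at hx
  obtain ⟨a, ha, b, hb, hx⟩ := hx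
  obtain ⟨s, t, hs, ht, hst, rfl⟩ := hx
  exact ⟨a, ha, b, hb, t, ht, by linarith, by rw [show (1 : ℝ) - t = s by linarith]⟩

/-- The basic facts about the face lattice of a free join. -/
structure JoinFacts (Q P₁ P₂ : Set (Fin m → ℝ)) : Prop where
  exp₁ : IsExposed ℝ Q P₁
  exp₂ : IsExposed ℝ Q P₂
  ne₁ : P₁ ≠ Q
  ne₂ : P₂ ≠ Q
  disj : ∀ x, x ∈ P₁ → x ∉ P₂
  atom : ∀ G : Set (Fin m → ℝ), IsExposed ℝ Q G → G.Nonempty →
    (∀ H : Set (Fin m → ℝ), IsExposed ℝ Q H → H.Nonempty → H ⊆ G → H = G) → G ⊆ P₁ ∨ G ⊆ P₂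
  coatom : ∀ G : Set (Fin m → ℝ), IsExposed ℝ Q G → G ≠ Q →
    (∀ H : Set (Fin m → ℝ), IsExposed ℝ Q H → H ≠ Q → G ⊆ H → H = G) → P₁ ⊆ G ∨ P₂ ⊆ G

lemma join_exposed (hP₁ : IsPolytope P₁) (hP₂ : IsPolytope P₂) (hn₁ : P₁.Nonempty)
    (hn₂ : P₂.Nonempty) (hdim : dim (P₁ ∪ P₂) = dim P₁ + dim P₂ + 1) :
    IsExposed ℝ (convexHull ℝ (P₁ ∪ P₂)) P₁ ∧ P₁ ≠ convexHull ℝ (P₁ ∪ P₂) ∧
      (∀ x, x ∈ P₁ → x ∉ P₂) := by
  obtain ⟨p₁, h₁⟩ := hn₁
  obtain ⟨p₂, h₂⟩ := hn₂
  obtain ⟨l, hl₁, hl₂, hl₃⟩ := exists_functional h₁ h₂ hdim 0 (-1)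
  have e₁ : ∀ x ∈ P₁, l x = l p₁ := by
    intro x hx
    have := hl₁ x hx
    rw [map_sub] at this
    simp at this
    linarith
  have e₂ : ∀ x ∈ P₂, l x = l p₁ - 1 := by
    intro x hx
    have := hl₂ x hx
    rw [map_sub] at this hl₃
    linarith
  have sub₁ : P₁ ⊆ convexHull ℝ (P₁ ∪ P₂) :=
    subset_union_left.trans (subset_convexHull ℝ _)
  have sub₂ : P₂ ⊆ convexHull ℝ (P₁ ∪ P₂) :=
    subset_union_right.trans (subset_convexHull ℝ _)
  have hle : ∀ y ∈ convexHull ℝ (P₁ ∪ P₂), l y ≤ l p₁ := by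
    intro y hy
    obtain ⟨x₁, hx₁, x₂, hx₂, t, ht0, ht1, rfl⟩ :=
      exists_of_mem_join hP₁ hP₂ ⟨p₁, h₁⟩ ⟨p₂, h₂⟩ hy
    rw [map_add, map_smul, map_smul, e₁ x₁ hx₁, e₂ x₂ hx₂]
    simp only [smul_eq_mul]
    nlinarith
  refine ⟨?_, ?_, ?_⟩
  · intro _
    refine ⟨LinearMap.toContinuousLinearMap l, ?_⟩
    ext x
    simp only [LinearMap.coe_toContinuousLinearMap', mem_ofPred_eq]
    constructor
    · intro hx
      refine ⟨sub₁ hx, fun y hy => ?_⟩
      rw [e₁ x hx]
      exact hle y hy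
    · rintro ⟨hx, hmax⟩
      obtain ⟨x₁, hx₁, x₂, hx₂, t, ht0, ht1, rfl⟩ :=
        exists_of_mem_join hP₁ hP₂ ⟨p₁, h₁⟩ ⟨p₂, h₂⟩ hx
      have h := hmax p₁ (sub₁ h₁)
      rw [map_add, map_smul, map_smul, e₁ x₁ hx₁, e₂ x₂ hx₂] at h
      simp only [smul_eq_mul] at h
      have ht : t = 0 := by nlinarith
      subst ht
      simpa using hx₁
  · intro h
    have hp₂ : p₂ ∈ P₁ := by rw [h]; exact sub₂ h₂
    have := e₁ p₂ hp₂
    rw [e₂ p₂ h₂] at this
    linarith
  · intro x hx₁ hx₂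
    have h1 := e₁ x hx₁
    have h2 := e₂ x hx₂
    linarith

lemma isExposed_inter_of {A F G : Set (Fin m → ℝ)} (hF : IsExposed ℝ A F)
    (hG : IsExposed ℝ A G) : IsExposed ℝ A (F ∩ G) := hF.inter hG

lemma join_facts (hP₁ : IsPolytope P₁) (hP₂ : IsPolytope P₂) (hn₁ : P₁.Nonempty)
    (hn₂ : P₂.Nonempty) (hdim : dim (P₁ ∪ P₂) = dim P₁ + dim P₂ + 1) :
    JoinFacts (convexHull ℝ (P₁ ∪ P₂)) P₁ P₂ := by
  obtain ⟨a1, a2, a3⟩ := join_exposed hP₁ hP₂ hn₁ hn₂ hdim
  have hdim' : dim (P₂ ∪ P₁) = dim P₂ + dim P₁ + 1 := by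
    rw [union_comm, hdim]; ring
  obtain ⟨b1, b2, b3⟩ := join_exposed hP₂ hP₁ hn₂ hn₁ hdim'
  rw [union_comm] at b1 b2
  have sub₁ : P₁ ⊆ convexHull ℝ (P₁ ∪ P₂) :=
    subset_union_left.trans (subset_convexHull ℝ _)
  have sub₂ : P₂ ⊆ convexHull ℝ (P₁ ∪ P₂) :=
    subset_union_right.trans (subset_convexHull ℝ _)
  refine ⟨a1, b1, a2, b2, a3, ?_, ?_⟩
  · -- atoms
    intro G hG hGne hmin
    obtain ⟨l, hl⟩ := hG hGne
    obtain ⟨x, hx⟩ := hGne
    have hxG := hx
    rw [hl] at hx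
    obtain ⟨hxQ, hmax⟩ := hx
    obtain ⟨x₁, hx₁, x₂, hx₂, t, ht0, ht1, hxt⟩ := exists_of_mem_join hP₁ hP₂ hn₁ hn₂ hxQ
    have m₁ := hmax x₁ (sub₁ hx₁)
    have m₂ := hmax x₂ (sub₂ hx₂)
    have hlx : l x = (1 - t) * l x₁ + t * l x₂ := by
      rw [hxt, map_add, map_smul, map_smul]; simp
    have hor : l x ≤ l x₁ ∨ l x ≤ l x₂ := by
      by_contra hcon
      push Not at hcon
      obtain ⟨c1, c2⟩ := hcon
      rcases eq_or_lt_of_le ht0 with h0 | h0
      · subst h0; simp at hlx; linarith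
      · nlinarith
    rcases hor with h | h
    · left
      have hmem : x₁ ∈ G := by
        rw [hl]; exact ⟨sub₁ hx₁, fun y hy => (hmax y hy).trans h⟩
      have := hmin (G ∩ P₁) (hG.inter a1) ⟨x₁, hmem, hx₁⟩ inter_subset_left
      rw [← this]; exact inter_subset_right
    · right
      have hmem : x₂ ∈ G := by
        rw [hl]; exact ⟨sub₂ hx₂, fun y hy => (hmax y hy).trans h⟩
      have := hmin (G ∩ P₂) (hG.inter b1) ⟨x₂, hmem, hx₂⟩ inter_subset_left
      rw [← this]; exact inter_subset_right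
  · -- coatoms
    intro G hG hGne hmax
    by_cases hP₁G : P₁ ⊆ G
    · exact Or.inl hP₁G
    rcases G.eq_empty_or_nonempty with hGe | hGn
    · exfalso
      have := hmax P₁ a1 a2 (by rw [hGe]; exact empty_subset _)
      exact hP₁G (by rw [← this])
    obtain ⟨l, hl⟩ := hG hGn
    obtain ⟨x0, hx0⟩ := hGn
    rw [hl] at hx0
    obtain ⟨hx0Q, hx0max⟩ := hx0
    obtain ⟨z, hz, hzG⟩ := not_subset.mp hP₁G
    have hzlt : l z < l x0 := by
      by_contra hcon
      push Not at hcon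
      apply hzG
      rw [hl]
      exact ⟨sub₁ hz, fun y hy => (hx0max y hy).trans hcon⟩
    obtain ⟨p₂, h₂⟩ := hn₂
    obtain ⟨l', hl₁, hl₂, hl₃⟩ := exists_functional hz h₂ hdim (l : (Fin m → ℝ) →ₗ[ℝ] ℝ)
      (l x0 - l z)
    have e₁ : ∀ x ∈ P₁, l' x = l x + (l' z - l z) := by
      intro x hx
      have := hl₁ x hx
      simp only [map_sub, ContinuousLinearMap.coe_coe] at this
      linarith
    have e₂ : ∀ x ∈ P₂, l' x = l x0 + (l' z - l z) := by
      intro x hx
      have := hl₂ x hx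
      simp only [map_sub] at this hl₃
      linarith
    have hle : ∀ y ∈ convexHull ℝ (P₁ ∪ P₂), l' y ≤ l x0 + (l' z - l z) := by
      intro y hy
      obtain ⟨x₁, hx₁, x₂, hx₂, t, ht0, ht1, rfl⟩ :=
        exists_of_mem_join hP₁ hP₂ ⟨z, hz⟩ ⟨p₂, h₂⟩ hy
      rw [map_add, map_smul, map_smul, e₁ x₁ hx₁, e₂ x₂ hx₂]
      have := hx0max x₁ (sub₁ hx₁)
      simp only [smul_eq_mul]
      nlinarith
    set G' : Set (Fin m → ℝ) := {x ∈ convexHull ℝ (P₁ ∪ P₂) | ∀ y ∈ convexHull ℝ (P₁ ∪ P₂),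
      (LinearMap.toContinuousLinearMap l') y ≤ (LinearMap.toContinuousLinearMap l') x} with hG'
    have hG'exp : IsExposed ℝ (convexHull ℝ (P₁ ∪ P₂)) G' := fun _ => ⟨_, hG'⟩
    have hmem : ∀ x, x ∈ convexHull ℝ (P₁ ∪ P₂) → l x0 + (l' z - l z) ≤ l' x → x ∈ G' := by
      intro x hx h
      refine ⟨hx, fun y hy => ?_⟩
      simp only [LinearMap.coe_toContinuousLinearMap']
      exact (hle y hy).trans h
    have hP₂G' : P₂ ⊆ G' := fun x hx => hmem x (sub₂ hx) (by rw [e₂ x hx])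
    have hG'ne : G' ≠ convexHull ℝ (P₁ ∪ P₂) := by
      intro heq
      have hzG' : z ∈ G' := by rw [heq]; exact sub₁ hz
      have := hzG'.2 p₂ (sub₂ h₂)
      simp only [LinearMap.coe_toContinuousLinearMap'] at this
      rw [e₂ p₂ h₂] at this
      linarith
    have hsub : G ⊆ G' := by
      intro x hx
      rw [hl] at hx
      obtain ⟨hxQ, hxmax⟩ := hx
      have hxe : l x = l x0 := le_antisymm (hx0max x hxQ) (hxmax x0 hx0Q)
      obtain ⟨x₁, hx₁, x₂, hx₂, t, ht0, ht1, hxt⟩ :=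
        exists_of_mem_join hP₁ hP₂ ⟨z, hz⟩ ⟨p₂, h₂⟩ hxQ
      apply hmem x hxQ
      have m₂ := hx0max x₂ (sub₂ hx₂)
      have hlx : l x = (1 - t) * l x₁ + t * l x₂ := by
        rw [hxt, map_add, map_smul, map_smul]; simp
      rw [hxt, map_add, map_smul, map_smul, e₁ x₁ hx₁, e₂ x₂ hx₂]
      simp only [smul_eq_mul]
      nlinarith
    have := hmax G' hG'exp hG'ne hsub
    exact Or.inr (by rw [← this]; exact hP₂G')

end join

/-! ### Polytopes given by inequalities -/

section inequalities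

variable {m : ℕ} {ι : Type*} (g : ι → (Fin m → ℝ) →ₗ[ℝ] ℝ) (b : ι → ℝ)

/-- The polyhedron defined by the inequalities `g i x ≤ b i`. -/
def polyh : Set (Fin m → ℝ) := {x | ∀ i, g i x ≤ b i}

/-- The face of the polyhedron where the `i`-th inequality is tight. -/
def tight (i : ι) : Set (Fin m → ℝ) := {x ∈ polyh g b | g i x = b i}

variable {g b}

lemma convex_polyh : Convex ℝ (polyh g b) := by
  intro x hx y hy s t hs ht hst i
  rw [map_add, map_smul, map_smul]
  have h1 := hx i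
  have h2 := hy i
  simp only [smul_eq_mul]
  calc s * g i x + t * g i y ≤ s * b i + t * b i := by gcongr
    _ = b i := by rw [← add_mul, hst, one_mul]

lemma tight_exposed (i : ι) : IsExposed ℝ (polyh g b) (tight g b i) := by
  rintro ⟨x0, hx0, hx0e⟩
  refine ⟨LinearMap.toContinuousLinearMap (g i), ?_⟩
  ext x
  simp only [tight, LinearMap.coe_toContinuousLinearMap', mem_ofPred_eq]
  constructor
  · rintro ⟨hx, hxe⟩
    exact ⟨hx, fun y hy => by rw [hxe]; exact hy i⟩
  · rintro ⟨hx, hmax⟩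
    exact ⟨hx, le_antisymm (hx i) (by rw [← hx0e]; exact hmax x0 hx0)⟩

/-- Every proper face lies in one of the faces `tight i`. -/
lemma exists_subset_tight [Fintype ι] [Nonempty ι] {G : Set (Fin m → ℝ)}
    (hG : IsExposed ℝ (polyh g b) G) (hne : G ≠ polyh g b) : ∃ i, G ⊆ tight g b i := by
  classical
  rcases G.eq_empty_or_nonempty with hGe | hGn
  · exact ⟨Classical.arbitrary ι, by rw [hGe]; exact empty_subset _⟩
  by_contra hcon
  push Not at hcon
  have hGsub : G ⊆ polyh g b := hG.subset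
  have hGconv : Convex ℝ G := hG.convex convex_polyh
  have hstep : ∀ s : Finset ι, ∃ x ∈ G, ∀ i ∈ s, g i x < b i := by
    intro s
    induction s using Finset.induction_on with
    | empty =>
      obtain ⟨x, hx⟩ := hGn
      exact ⟨x, hx, by simp⟩
    | insert a s ha ih =>
      obtain ⟨x, hx, hxs⟩ := ih
      obtain ⟨y, hy, hya⟩ := not_subset.mp (hcon a)
      have hya' : g a y < b a := by
        refine lt_of_le_of_ne (hGsub hy a) fun h => hya ⟨hGsub hy, h⟩
      refine ⟨(1 / 2 : ℝ) • x + (1 / 2 : ℝ) • y, hGconv hx hy (by norm_num) (by norm_num)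
        (by norm_num), ?_⟩
      intro i hi
      rw [map_add, map_smul, map_smul]
      simp only [smul_eq_mul]
      have h1 := hGsub hx i
      have h2 := hGsub hy i
      rcases Finset.mem_insert.mp hi with rfl | hi
      · linarith
      · have := hxs i hi
        linarith
  obtain ⟨x, hxG, hx⟩ := hstep Finset.univ
  obtain ⟨l, hl⟩ := hG hGn
  have hxG' := hxG
  rw [hl] at hxG'
  obtain ⟨hxP, hxmax⟩ := hxG'
  -- a point with smaller value of `l`
  have hz : ∃ z ∈ polyh g b, l z < l x := by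
    by_contra hno
    push Not at hno
    apply hne
    apply Subset.antisymm hGsub
    intro y hy
    rw [hl]
    exact ⟨hy, fun w hw => (hxmax w hw).trans (hno y hy)⟩
  obtain ⟨z, hzP, hz⟩ := hz
  -- move slightly beyond `x`
  have hopen : IsOpen {ε : ℝ | ∀ i, g i (x + ε • (x - z)) < b i} := by
    have : {ε : ℝ | ∀ i, g i (x + ε • (x - z)) < b i} =
        ⋂ i, {ε : ℝ | g i (x + ε • (x - z)) < b i} := by
      ext ε; simp
    rw [this]
    refine isOpen_iInter_of_finite fun i => ?_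
    have hc : Continuous fun ε : ℝ => g i (x + ε • (x - z)) := by
      have : (fun ε : ℝ => g i (x + ε • (x - z))) = fun ε : ℝ => g i x + ε * g i (x - z) := by
        funext ε; rw [map_add, map_smul]; rfl
      rw [this]
      fun_prop
    exact isOpen_lt hc continuous_const
  have h0 : (0 : ℝ) ∈ {ε : ℝ | ∀ i, g i (x + ε • (x - z)) < b i} := by
    intro i
    simpa using hx i (Finset.mem_univ i)
  obtain ⟨δ, hδ, hball⟩ := Metric.isOpen_iff.mp hopen 0 h0
  have hε : (δ / 2) ∈ {ε : ℝ | ∀ i, g i (x + ε • (x - z)) < b i} := by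
    apply hball
    simp only [Metric.mem_ball, dist_zero_right, Real.norm_eq_abs]
    rw [abs_of_pos (by positivity)]
    linarith
  have hmem : x + (δ / 2) • (x - z) ∈ polyh g b := fun i => (hε i).le
  have := hxmax _ hmem
  rw [map_add, map_smul, map_sub] at this
  simp only [smul_eq_mul] at this
  nlinarith

lemma finrank_ker_of_ne_zero {l : (Fin m → ℝ) →ₗ[ℝ] ℝ} (hl : l ≠ 0) :
    Module.finrank ℝ (LinearMap.ker l) + 1 = m := by
  have h := LinearMap.finrank_range_add_finrank_ker l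
  have h2 : LinearMap.range l = ⊤ := LinearMap.range_eq_top.mpr (LinearMap.surjective hl)
  rw [h2] at h
  simp at h
  omega

/-- A face of codimension one is one of the faces `tight i`. -/
lemma exists_eq_tight [Fintype ι] [Nonempty ι] (hg : ∀ i, g i ≠ 0) {G : Set (Fin m → ℝ)}
    (hG : IsExposed ℝ (polyh g b) G) (hGn : G.Nonempty) (hdG : dim G + 1 = m)
    (hdP : dim (polyh g b) = m) : ∃ i, G = tight g b i := by
  have hne : G ≠ polyh g b := by
    intro h
    rw [h, hdP] at hdG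
    omega
  obtain ⟨i, hi⟩ := exists_subset_tight hG hne
  refine ⟨i, Subset.antisymm hi ?_⟩
  obtain ⟨l, hl⟩ := hG hGn
  obtain ⟨x0, hx0⟩ := hGn
  have hx0' := hx0
  rw [hl] at hx0'
  have hl0 : (l : (Fin m → ℝ) →ₗ[ℝ] ℝ) ≠ 0 := by
    intro h0
    apply hne
    rw [hl]
    ext x
    simp only [mem_ofPred_eq, and_iff_left_iff_imp]
    intro _ y _
    have e : ∀ w, l w = 0 := fun w => by
      have := LinearMap.congr_fun h0 w
      simpa using this
    rw [e, e]
  have hv1 : vectorSpan ℝ G ≤ LinearMap.ker (l : (Fin m → ℝ) →ₗ[ℝ] ℝ) := by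
    rw [vectorSpan_def, Submodule.span_le]
    rintro _ ⟨x, hx, y, hy, rfl⟩
    rw [hl] at hx hy
    simp only [SetLike.mem_coe, LinearMap.mem_ker, vsub_eq_sub, map_sub,
      ContinuousLinearMap.coe_coe]
    have := hx.2 y hy.1
    have := hy.2 x hx.1
    linarith
  have hv2 : vectorSpan ℝ G ≤ LinearMap.ker (g i) := by
    rw [vectorSpan_def, Submodule.span_le]
    rintro _ ⟨x, hx, y, hy, rfl⟩
    simp only [SetLike.mem_coe, LinearMap.mem_ker, vsub_eq_sub, map_sub]
    rw [(hi hx).2, (hi hy).2, sub_self]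
  have e1 : vectorSpan ℝ G = LinearMap.ker (l : (Fin m → ℝ) →ₗ[ℝ] ℝ) := by
    apply Submodule.eq_of_le_of_finrank_eq hv1
    have := finrank_ker_of_ne_zero hl0
    unfold dim at hdG
    omega
  have e2 : vectorSpan ℝ G = LinearMap.ker (g i) := by
    apply Submodule.eq_of_le_of_finrank_eq hv2
    have := finrank_ker_of_ne_zero (hg i)
    unfold dim at hdG
    omega
  intro x hx
  have hk : x - x0 ∈ LinearMap.ker (g i) := by
    simp only [LinearMap.mem_ker, map_sub]
    rw [hx.2, (hi hx0).2, sub_self]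
  rw [← e2, e1, LinearMap.mem_ker] at hk
  simp only [map_sub, ContinuousLinearMap.coe_coe] at hk
  rw [hl]
  refine ⟨hx.1, fun y hy => ?_⟩
  have := hx0'.2 y hy
  linarith

/-- If no `tight i` contains another one then they are maximal proper faces. -/
lemma tight_maximal [Fintype ι] [Nonempty ι] (hsub : ∀ i j, tight g b i ⊆ tight g b j → i = j) (i : ι)
    {G : Set (Fin m → ℝ)} (hG : IsExposed ℝ (polyh g b) G) (hne : G ≠ polyh g b)
    (hi : tight g b i ⊆ G) : G = tight g b i := by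
  obtain ⟨j, hj⟩ := exists_subset_tight hG hne
  have := hsub i j (hi.trans hj)
  subst this
  exact Subset.antisymm hj hi

end inequalities

/-! ### Vertices of the convex hull of a finite family -/

section vertices

lemma comb_lt {s t x y M : ℝ} (hs : 0 < s) (ht : 0 ≤ t) (hst : s + t = 1) (hx : x < M)
    (hy : y ≤ M) : s * x + t * y < M := by
  have h1 := mul_lt_mul_of_pos_left hx hs
  have h2 := mul_le_mul_of_nonneg_left hy ht
  have h3 : s * M + t * M = M := by rw [← add_mul, hst, one_mul]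
  linarith

variable {m : ℕ} {κ : Type*} (v : κ → Fin m → ℝ)

lemma exposed_singleton (k : κ) (l : (Fin m → ℝ) →ₗ[ℝ] ℝ) (hl : ∀ j, v j ≠ v k → l (v j) < l (v k)) :
    IsExposed ℝ (convexHull ℝ (range v)) {v k} := by
  intro _
  refine ⟨LinearMap.toContinuousLinearMap l, ?_⟩
  have hconv : Convex ℝ ({x : Fin m → ℝ | x = v k ∨ l x < l (v k)}) := by
    intro x hx y hy s t hs ht hst
    simp only [mem_ofPred_eq] at hx hy ⊢
    rcases eq_or_lt_of_le hs with hs0 | hs0
    · subst hs0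
      have : t = 1 := by linarith
      subst this
      simpa using hy
    rcases eq_or_lt_of_le ht with ht0 | ht0
    · subst ht0
      have : s = 1 := by linarith
      subst this
      simpa using hx
    rcases hx with rfl | hx <;> rcases hy with rfl | hy
    · left
      rw [← add_smul, hst, one_smul]
    · right
      rw [map_add, map_smul, map_smul]
      simp only [smul_eq_mul]
      have := comb_lt ht0 hs0.le (by linarith) hy (le_refl (l (v k)))
      linarith
    · right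
      rw [map_add, map_smul, map_smul]
      simp only [smul_eq_mul]
      exact comb_lt hs0 ht0.le hst hx le_rfl
    · right
      rw [map_add, map_smul, map_smul]
      simp only [smul_eq_mul]
      exact comb_lt hs0 ht0.le hst hx hy.le
  have hsub : convexHull ℝ (range v) ⊆ {x : Fin m → ℝ | x = v k ∨ l x < l (v k)} := by
    apply convexHull_min _ hconv
    rintro _ ⟨j, rfl⟩
    by_cases h : v j = v k
    · exact Or.inl h
    · exact Or.inr (hl j h)
  have hk : v k ∈ convexHull ℝ (range v) := subset_convexHull ℝ _ ⟨k, rfl⟩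
  ext x
  simp only [mem_singleton_iff, LinearMap.coe_toContinuousLinearMap', mem_ofPred_eq]
  constructor
  · rintro rfl
    refine ⟨hk, fun y hy => ?_⟩
    rcases hsub hy with h | h
    · rw [h]
    · exact h.le
  · rintro ⟨hx, hmax⟩
    rcases hsub hx with h | h
    · exact h
    · exact absurd (hmax _ hk) (not_le.mpr h)

/-- A nonempty exposed face of a convex hull contains one of the generating points. -/
lemma exists_mem_of_exposed {G : Set (Fin m → ℝ)} (hG : IsExposed ℝ (convexHull ℝ (range v)) G)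
    (hGn : G.Nonempty) : ∃ k, v k ∈ G := by
  by_contra hcon
  push Not at hcon
  obtain ⟨l, hl⟩ := hG hGn
  obtain ⟨x, hx⟩ := hGn
  have hx' := hx
  rw [hl] at hx'
  have hconv : Convex ℝ {y : Fin m → ℝ | l y < l x} := by
    intro y hy z hz s t hs ht hst
    simp only [mem_ofPred_eq] at hy hz ⊢
    rw [map_add, map_smul, map_smul]
    simp only [smul_eq_mul]
    rcases eq_or_lt_of_le hs with hs0 | hs0
    · subst hs0
      have : t = 1 := by linarith
      subst this
      simpa using hz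
    · exact comb_lt hs0 ht hst hy hz.le
  have hsub : convexHull ℝ (range v) ⊆ {y : Fin m → ℝ | l y < l x} := by
    apply convexHull_min _ hconv
    rintro _ ⟨k, rfl⟩
    simp only [mem_ofPred_eq]
    by_contra h
    push Not at h
    apply hcon k
    rw [hl]
    exact ⟨subset_convexHull ℝ _ ⟨k, rfl⟩, fun y hy => (hx'.2 y hy).trans h⟩
  have := hsub hx'.1
  simp at this

end vertices

end Pool.Agent.Helper18.FaceLattice
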