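import Mathlib

/-!
# Mixed metric dimension: definitions and breadth-first search structure
-/

set_option autoImplicit false

open SimpleGraph

namespace Pool.Agent.Helper18.MixedDim

variable {V : Type*} (G : SimpleGraph V)

/-- The distance `d(w, e) = min (d(w, u)) (d(w, v))` from a vertex `w` to an edge `e = uv`. -/
noncomputable def distEdge (w : V) (e : Sym2 V) : ℕ :=
  Sym2.lift ⟨fun u v => min (G.dist w u) (G.dist w v), fun _ _ => min_comm _ _⟩ e

/-- The distance from a vertex to an element of `V(G) ∪ E(G)`. -/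
noncomputable def distElem (w : V) : V ⊕ G.edgeSet → ℕ
  | Sum.inl v => G.dist w v
  | Sum.inr e => distEdge G w e.1

/-- `S` is a mixed resolving set: every two distinct elements of `V(G) ∪ E(G)` have different
distances to some vertex of `S`. -/
def IsMixedResolving (S : Finset V) : Prop :=
  ∀ x y : V ⊕ G.edgeSet, x ≠ y → ∃ s ∈ S, distElem G s x ≠ distElem G s y

/-- The mixed metric dimension: the smallest size of a mixed resolving set. -/
noncomputable def mdim : ℕ :=
  sInf {k : ℕ | ∃ S : Finset V, S.card = k ∧ IsMixedResolving G S}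

/-- The cyclomatic number `m - n + 1` of a (finite connected) graph. -/
noncomputable def cyclomatic [Fintype V] : ℤ :=
  (Nat.card G.edgeSet : ℤ) - Fintype.card V + 1

/-- `G` is 2-connected: it is connected, has at least three vertices and no cut-vertex. -/
def TwoConnected [Fintype V] : Prop :=
  3 ≤ Fintype.card V ∧ G.Connected ∧ ∀ v : V, (G.induce ({v}ᶜ : Set V)).Connected

variable {G}

/-! ### Distances and descendants -/

section basic

variable {r : V}

/-- `s` is a descendant of `w` (with respect to the root `r`). -/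
def Desc (G : SimpleGraph V) (r w s : V) : Prop := G.dist r s = G.dist r w + G.dist w s

lemma exists_step (hc : G.Connected) {w s : V} (h : w ≠ s) :
    ∃ u, G.Adj w u ∧ G.dist u s + 1 = G.dist w s := by
  obtain ⟨p, hp⟩ := hc.exists_walk_length_eq_dist w s
  cases p with
  | nil => exact absurd rfl h
  | cons hadj q =>
    rename_i u
    refine ⟨u, hadj, ?_⟩
    rw [Walk.length_cons] at hp
    have h1 := dist_le q
    have h2 : G.dist w s ≤ G.dist w u + G.dist u s := hc.dist_triangle
    rw [dist_eq_one_iff_adj.mpr hadj] at h2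
    omega

lemma dist_le_succ (hc : G.Connected) {u v : V} (h : G.Adj u v) (s : V) :
    G.dist s u ≤ G.dist s v + 1 := by
  have h2 : G.dist s u ≤ G.dist s v + G.dist v u := hc.dist_triangle
  rw [dist_eq_one_iff_adj.mpr h.symm] at h2
  exact h2

lemma dist_le_succ' (hc : G.Connected) {u v : V} (h : G.Adj u v) (s : V) :
    G.dist u s ≤ G.dist v s + 1 := by
  rw [dist_comm, dist_comm (u := v)]; exact dist_le_succ hc h s

lemma desc_refl (w : V) : Desc G r w w := by simp [Desc]

lemma desc_child (hc : G.Connected) {w s : V} (h : Desc G r w s) (hne : w ≠ s) :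
    ∃ u, G.Adj w u ∧ G.dist r u = G.dist r w + 1 ∧ Desc G r u s := by
  obtain ⟨u, hu, hd⟩ := exists_step hc hne
  have h1 := dist_le_succ hc hu.symm r
  have h2 : G.dist r s ≤ G.dist r u + G.dist u s := hc.dist_triangle
  unfold Desc at h ⊢
  exact ⟨u, hu, by omega, by omega⟩

lemma desc_parent (hc : G.Connected) {w s : V} (h : Desc G r w s) (hne : w ≠ s) :
    ∃ p, G.Adj s p ∧ G.dist r p + 1 = G.dist r s ∧ Desc G r w p := by
  obtain ⟨p, hp, hd⟩ := exists_step hc (Ne.symm hne)
  rw [dist_comm, dist_comm (u := s)] at hd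
  have h1 := dist_le_succ hc hp r
  have h2 : G.dist r p ≤ G.dist r w + G.dist w p := hc.dist_triangle
  unfold Desc at h ⊢
  exact ⟨p, hp, by omega, by omega⟩

lemma desc_of_child (hc : G.Connected) {w u s : V} (hadj : G.Adj w u)
    (hd : G.dist r u = G.dist r w + 1) (h : Desc G r u s) : Desc G r w s := by
  have h1 := dist_le_succ' hc hadj s
  have h2 : G.dist r s ≤ G.dist r w + G.dist w s := hc.dist_triangle
  unfold Desc at h ⊢
  omega

lemma desc_of_parent (hc : G.Connected) {w p s : V} (hadj : G.Adj s p)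
    (hd : G.dist r p + 1 = G.dist r s) (h : Desc G r w p) : Desc G r w s := by
  have h1 := dist_le_succ hc hadj w
  have h2 : G.dist r s ≤ G.dist r w + G.dist w s := hc.dist_triangle
  unfold Desc at h ⊢
  omega

lemma dist_lt_of_not_desc (hc : G.Connected) {w s : V} (h : ¬ Desc G r w s) :
    G.dist r s < G.dist r w + G.dist w s := by
  have h2 : G.dist r s ≤ G.dist r w + G.dist w s := hc.dist_triangle
  unfold Desc at h
  omega

lemma dep_le (hc : G.Connected) (w s : V) : G.dist r s ≤ G.dist r w + G.dist w s :=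
  hc.dist_triangle

lemma eq_of_desc (hc : G.Connected) {w s : V} (h : Desc G r w s)
    (hd : G.dist r w = G.dist r s) : w = s := by
  unfold Desc at h
  have : G.dist w s = 0 := by omega
  exact hc.dist_eq_zero_iff.mp this

/-- The climbing lemma: along a set of vertices with a unique way up, distances to `s` decrease. -/
lemma climb [Finite V] (hc : G.Connected) (s : V) (P : V → Prop)
    (hP : ∀ w, P w → w ≠ s)
    (huniq : ∀ w, P w → ∀ v v', G.Adj w v → G.dist r v + 1 = G.dist r w →
      G.Adj w v' → G.dist r v' + 1 = G.dist r w → v = v')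
    (hnb : ∀ w, P w → ∀ u, G.Adj w u → G.dist r u + 1 = G.dist r w ∨
      (P u ∧ G.dist r u = G.dist r w + 1) ∨ G.dist w s ≤ G.dist u s) :
    ∀ w, P w → ∀ v, G.Adj w v → G.dist r v + 1 = G.dist r w → G.dist v s + 1 = G.dist w s := by
  obtain ⟨K, hK⟩ : ∃ K, ∀ w, G.dist r w ≤ K := by
    obtain ⟨K, hK⟩ := (Set.finite_range fun w => G.dist r w).bddAbove
    exact ⟨K, fun w => hK ⟨w, rfl⟩⟩
  have main : ∀ n : ℕ, ∀ w, P w → K - G.dist r w = n → ∀ v, G.Adj w v →
      G.dist r v + 1 = G.dist r w → G.dist v s + 1 = G.dist w s := by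
    intro n
    induction n using Nat.strong_induction_on with
    | _ n ih =>
      intro w hw hn v hv hdv
      obtain ⟨u, hu, hdu⟩ := exists_step hc (hP w hw)
      rcases hnb w hw u hu with h1 | ⟨h1, h2⟩ | h1
      · rw [huniq w hw v u hv hdv hu h1]; exact hdu
      · have hlt : K - G.dist r u < n := by
          have := hK u; omega
        have := ih _ hlt u h1 rfl w hu.symm (by omega)
        omega
      · omega
  exact fun w hw => main _ w hw rfl

lemma climb_path (hc : G.Connected) (s l : V) (P : V → Prop)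
    (hP : ∀ w, P w → ∀ u, G.Adj w u → G.dist r u = G.dist r w + 1 → Desc G r u l → P u)
    (hstep : ∀ w, P w → ∀ v, G.Adj w v → G.dist r v + 1 = G.dist r w →
      G.dist v s + 1 = G.dist w s) :
    ∀ w, P w → Desc G r w l → G.dist l s = G.dist w s + G.dist w l := by
  have main : ∀ n w, G.dist w l = n → P w → Desc G r w l →
      G.dist l s = G.dist w s + G.dist w l := by
    intro n
    induction n with
    | zero =>
      intro w hn hw hd
      have := hc.dist_eq_zero_iff.mp hn
      subst this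
      simp
    | succ n ih =>
      intro w hn hw hd
      have hne : w ≠ l := by rintro rfl; simp at hn
      obtain ⟨u, hu, hdu, hD⟩ := desc_child hc hd hne
      have hPu := hP w hw u hu hdu hD
      have h1 := hstep u hPu w hu.symm hdu.symm
      have h2 : G.dist u l = n := by unfold Desc at hd hD; omega
      have h3 := ih u h2 hPu hD
      omega
  exact fun w => main _ w rfl

end basic

/-! ### A breadth-first search tree -/

/-- `par` is a parent function of a breadth-first search tree with root `r`. -/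
def IsPar (G : SimpleGraph V) (r : V) (par : V → V) : Prop :=
  ∀ v, v ≠ r → G.Adj v (par v) ∧ G.dist r (par v) + 1 = G.dist r v

/-- `uv` is a non-tree edge. -/
def NT (G : SimpleGraph V) (r : V) (par : V → V) (u v : V) : Prop :=
  G.Adj u v ∧ ¬ (u ≠ r ∧ par u = v) ∧ ¬ (v ≠ r ∧ par v = u)

lemma NT.symm {r : V} {par : V → V} {u v : V} (h : NT G r par u v) : NT G r par v u :=
  ⟨h.1.symm, h.2.2, h.2.1⟩

section bfs

variable {r : V} {par : V → V}

lemma exists_par (hc : G.Connected) (r : V) : ∃ par : V → V, IsPar G r par := by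
  classical
  have : ∀ v, ∃ p, v ≠ r → G.Adj v p ∧ G.dist r p + 1 = G.dist r v := by
    intro v
    by_cases hv : v = r
    · exact ⟨v, fun h => absurd hv h⟩
    · obtain ⟨p, hp, hd⟩ := exists_step hc hv
      rw [dist_comm, dist_comm (u := v)] at hd
      exact ⟨p, fun _ => ⟨hp, hd⟩⟩
  choose par hpar using this
  exact ⟨par, hpar⟩

/-- An edge to a vertex which is not the parent, and whose parent is not `w`, is non-tree;
here for a vertex at most as deep. -/
lemma nt_of_not_par (hpar : IsPar G r par) {w u : V} (hadj : G.Adj w u)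
    (hd : G.dist r u ≤ G.dist r w) (hne : par w ≠ u) : NT G r par w u := by
  refine ⟨hadj, fun h => hne h.2, fun h => ?_⟩
  have := (hpar u h.1).2
  rw [h.2] at this
  omega

lemma ne_root_of_dep {w : V} {n : ℕ} (h : n + 1 = G.dist r w) : w ≠ r := by
  rintro rfl
  simp at h

/-- Every vertex has a childless descendant, which is an end of a non-tree edge. -/
lemma exists_leaf [Finite V] (hc : G.Connected) (hpar : IsPar G r par)
    (hdeg : ∀ v : V, ∃ u u', u ≠ u' ∧ G.Adj v u ∧ G.Adj v u') (w : V) :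
    ∃ l, Desc G r w l ∧ (∀ u, G.Adj l u → G.dist r u ≤ G.dist r l) ∧ ∃ u, NT G r par l u := by
  classical
  obtain ⟨l, hl, hmax⟩ := Set.exists_max_image {l | Desc G r w l} (fun l => G.dist r l)
    (Set.toFinite _) ⟨w, desc_refl w⟩
  have hnochild : ∀ u, G.Adj l u → G.dist r u ≤ G.dist r l := by
    intro u hu
    by_contra hlt
    push Not at hlt
    have h1 := dist_le_succ hc hu.symm r
    have h2 : Desc G r w u := desc_of_parent hc hu.symm (by omega) hl
    have := hmax u h2
    omega
  refine ⟨l, hl, hnochild, ?_⟩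
  obtain ⟨u, u', hne, hu, hu'⟩ := hdeg l
  by_cases h : par l = u
  · exact ⟨u', nt_of_not_par hpar hu' (hnochild u' hu') (by rw [h]; exact hne)⟩
  · exact ⟨u, nt_of_not_par hpar hu (hnochild u hu) h⟩

/-- The merging lemma. -/
lemma merge [Finite V] (hc : G.Connected) (hpar : IsPar G r par) (X : V → Prop)
    (hX : ∀ p c, X p → G.Adj p c → G.dist r c = G.dist r p + 1 → X c)
    {w w' : V} (hne : w ≠ w') (hdep : G.dist r w = G.dist r w')
    (hcom : ∃ p, ¬ X p ∧ Desc G r w p ∧ Desc G r w' p) :
    ∃ p p₁, ¬ X p ∧ NT G r par p p₁ ∧ G.dist r p₁ + 1 = G.dist r p ∧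
      ((Desc G r w p₁ ∧ ¬ Desc G r w' p₁) ∨ (Desc G r w' p₁ ∧ ¬ Desc G r w p₁)) := by
  classical
  obtain ⟨p, ⟨hpX, hp, hp'⟩, hmin⟩ := Set.exists_min_image
    {p | ¬ X p ∧ Desc G r w p ∧ Desc G r w' p} (fun l => G.dist r l) (Set.toFinite _) hcom
  have hpw : w ≠ p := by
    rintro rfl
    exact hne (eq_of_desc hc hp' hdep.symm).symm
  have hpw' : w' ≠ p := by
    rintro rfl
    exact hne (eq_of_desc hc hp hdep)
  obtain ⟨p₁, ha₁, hd₁, hD₁⟩ := desc_parent hc hp hpw
  obtain ⟨p₂, ha₂, hd₂, hD₂⟩ := desc_parent hc hp' hpw'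
  have hX₁ : ¬ X p₁ := fun h => hpX (hX p₁ p h ha₁.symm (by omega))
  have hX₂ : ¬ X p₂ := fun h => hpX (hX p₂ p h ha₂.symm (by omega))
  have n₁ : ¬ Desc G r w' p₁ := by
    intro h
    have := hmin p₁ ⟨hX₁, hD₁, h⟩
    omega
  have n₂ : ¬ Desc G r w p₂ := by
    intro h
    have := hmin p₂ ⟨hX₂, h, hD₂⟩
    omega
  by_cases h : par p = p₁
  · have hne12 : par p ≠ p₂ := by
      rintro h2
      rw [← h, h2] at n₁
      exact n₁ hD₂
    exact ⟨p, p₂, hpX, nt_of_not_par hpar ha₂ (by omega) hne12, hd₂, Or.inr ⟨hD₂, n₂⟩⟩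
  · exact ⟨p, p₁, hpX, nt_of_not_par hpar ha₁ (by omega) h, hd₁, Or.inl ⟨hD₁, n₁⟩⟩

lemma nt_of_horiz (hpar : IsPar G r par) {w u : V} (hadj : G.Adj w u)
    (hd : G.dist r u = G.dist r w) : NT G r par w u := by
  refine ⟨hadj, fun h => ?_, fun h => ?_⟩
  · have := (hpar w h.1).2
    rw [h.2] at this
    omega
  · have := (hpar u h.1).2
    rw [h.2] at this
    omega

lemma nt_or_nt (hpar : IsPar G r par) {u w w' : V} (hne : w ≠ w')
    (ha : G.Adj u w) (hd : G.dist r w + 1 = G.dist r u)
    (ha' : G.Adj u w') (hd' : G.dist r w' + 1 = G.dist r u) :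
    NT G r par u w ∨ NT G r par u w' := by
  by_cases h : par u = w
  · right
    exact nt_of_not_par hpar ha' (by omega) (by rw [h]; exact hne)
  · left
    exact nt_of_not_par hpar ha (by omega) h

end bfs

/-! ### Assembling a mixed resolving set -/

section assemble

lemma zero_end (hc : G.Connected) {p q w u : V} (h : p ≠ w) (h' : p ≠ u) :
    min (G.dist p p) (G.dist q p) ≠ min (G.dist w p) (G.dist u p) := by
  have h1 : G.dist w p ≠ 0 := fun h0 => h (hc.dist_eq_zero_iff.mp h0).symm
  have h2 : G.dist u p ≠ 0 := fun h0 => h' (hc.dist_eq_zero_iff.mp h0).symm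
  rw [SimpleGraph.dist_self]
  omega

lemma isMixedResolving_of (hc : G.Connected) {r : V} {T : Finset V} (hr : r ∈ T)
    (hVV : ∀ w w', w ≠ w' → G.dist r w = G.dist r w' → ∃ s ∈ T, G.dist w s ≠ G.dist w' s)
    (hVE : ∀ t w u, G.Adj w u → G.dist r w ≤ G.dist r u → G.dist r t = G.dist r w →
      ∃ s ∈ T, G.dist t s ≠ min (G.dist w s) (G.dist u s))
    (hEE : ∀ w u w' u', G.Adj w u → G.dist r w ≤ G.dist r u → G.Adj w' u' →
      G.dist r w' ≤ G.dist r u' → G.dist r w = G.dist r w' → s(w, u) ≠ s(w', u') →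
      ∃ s ∈ T, min (G.dist w s) (G.dist u s) ≠ min (G.dist w' s) (G.dist u' s)) :
    IsMixedResolving G T := by
  have key : ∀ e : G.edgeSet, ∃ w u, e.1 = s(w, u) ∧ G.Adj w u ∧ G.dist r w ≤ G.dist r u := by
    rintro ⟨e, he⟩
    induction e with
    | _ w u =>
      rcases le_total (G.dist r w) (G.dist r u) with h | h
      · exact ⟨w, u, rfl, he, h⟩
      · exact ⟨u, w, Sym2.eq_swap, he.symm, h⟩
  have hv : ∀ s w : V, distElem G s (Sum.inl w) = G.dist w s := by
    intro s w
    simp only [distElem]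
    exact dist_comm
  have hd : ∀ (s : V) (e : G.edgeSet) (w u : V), e.1 = s(w, u) →
      distElem G s (Sum.inr e) = min (G.dist w s) (G.dist u s) := by
    intro s e w u he
    simp only [distElem, distEdge, he, Sym2.lift_mk]
    rw [dist_comm, dist_comm (u := s) (v := u)]
  intro x y hxy
  by_cases hroot : distElem G r x = distElem G r y
  swap
  · exact ⟨r, hr, hroot⟩
  rcases x with t | e <;> rcases y with t' | e'
  · rw [hv, hv] at hroot
    obtain ⟨s, hs, h⟩ := hVV t t' (fun h => hxy (by rw [h]))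
      (by rw [dist_comm, hroot, dist_comm])
    exact ⟨s, hs, by rw [hv, hv]; exact h⟩
  · obtain ⟨w, u, he, ha, hle⟩ := key e'
    rw [hv, hd r e' w u he] at hroot
    obtain ⟨s, hs, h⟩ := hVE t w u ha hle (by
      rw [dist_comm, dist_comm (u := w), dist_comm (u := u)] at hroot
      omega)
    exact ⟨s, hs, by rw [hv, hd s e' w u he]; exact h⟩
  · obtain ⟨w, u, he, ha, hle⟩ := key e
    rw [hv, hd r e w u he] at hroot
    obtain ⟨s, hs, h⟩ := hVE t' w u ha hle (by
      rw [dist_comm (u := w), dist_comm (u := u), dist_comm (u := t')] at hroot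
      omega)
    exact ⟨s, hs, by rw [hv, hd s e w u he]; exact h.symm⟩
  · obtain ⟨w, u, he, ha, hle⟩ := key e
    obtain ⟨w', u', he', ha', hle'⟩ := key e'
    rw [hd r e w u he, hd r e' w' u' he'] at hroot
    obtain ⟨s, hs, h⟩ := hEE w u w' u' ha hle ha' hle' (by
      rw [dist_comm (u := w), dist_comm (u := u), dist_comm (u := w'),
        dist_comm (u := u')] at hroot
      omega) (fun h => hxy (by rw [← he, ← he'] at h; rw [Subtype.ext h]))
    exact ⟨s, hs, by rw [hd s e w u he, hd s e' w' u' he']; exact h⟩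

lemma assemble (hc : G.Connected) {r : V} {T : Finset V} (hr : r ∈ T) (a b : V)
    (h1 : ∀ w w', w ≠ w' → G.dist r w = G.dist r w' → ∃ s ∈ T, G.dist w s ≠ G.dist w' s)
    (h2 : ∀ t w u, G.Adj w u → G.dist r u = G.dist r w + 1 → G.dist r t = G.dist r w →
      ∃ s ∈ T, G.dist t s ≠ min (G.dist w s) (G.dist u s))
    (h3 : ∀ w u, G.Adj w u → G.dist r u = G.dist r w → (w ∈ T ∧ u ∈ T) ∨
       (((w = a ∧ u = b) ∨ (w = b ∧ u = a)) ∧ a ∈ T ∧
        (∀ c, G.Adj a c → G.dist r c ≤ G.dist r a) ∧ ∃ s ∈ T, G.dist b s < G.dist a s))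
    (h4 : ∀ w u w' u', G.Adj w u → G.dist r u = G.dist r w + 1 → G.Adj w' u' →
      G.dist r u' = G.dist r w' + 1 → G.dist r w = G.dist r w' → u ≠ u' →
      ∃ s ∈ T, min (G.dist w s) (G.dist u s) ≠ min (G.dist w' s) (G.dist u' s))
    (h5 : ∀ w w' u, w ≠ w' → G.Adj w u → G.dist r u = G.dist r w + 1 → G.Adj w' u →
      G.dist r u = G.dist r w' + 1 →
      ∃ s ∈ T, min (G.dist w s) (G.dist u s) ≠ min (G.dist w' s) (G.dist u s)) :
    IsMixedResolving G T := by
  have hd : ∀ w u, G.Adj w u → G.dist r w ≤ G.dist r u →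
      G.dist r u = G.dist r w ∨ G.dist r u = G.dist r w + 1 := by
    intro w u ha hle
    have := dist_le_succ hc ha.symm r
    omega
  have hswap : ∀ p q s : V, min (G.dist p s) (G.dist q s) = min (G.dist q s) (G.dist p s) :=
    fun p q s => min_comm _ _
  -- vertical against horizontal
  have hVH : ∀ w u w' u', G.Adj w u → G.dist r u = G.dist r w + 1 → G.Adj w' u' →
      G.dist r u' = G.dist r w' → G.dist r w = G.dist r w' →
      ∃ s ∈ T, min (G.dist w' s) (G.dist u' s) ≠ min (G.dist w s) (G.dist u s) := by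
    intro w u w' u' ha hdu ha' hdu' hww
    have hne1 : w' ≠ u := by rintro rfl; omega
    have hne2 : u' ≠ u := by rintro rfl; omega
    rcases h3 w' u' ha' hdu' with ⟨hw, hu⟩ | ⟨hab, haT, hch, -⟩
    · by_cases hw' : w' = w
      · have : u' ≠ w := by rintro rfl; exact ha'.ne hw'
        exact ⟨u', hu, by rw [hswap]; exact zero_end hc this hne2⟩
      · exact ⟨w', hw, zero_end hc hw' hne1⟩
    · have haw : a ≠ w := by
        rintro rfl
        have := hch u ha
        omega
      rcases hab with ⟨rfl, rfl⟩ | ⟨rfl, rfl⟩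
      · exact ⟨w', haT, zero_end hc haw hne1⟩
      · exact ⟨u', haT, by rw [hswap]; exact zero_end hc haw hne2⟩
  -- horizontal with both ends in `T` against another horizontal
  have hHH : ∀ w u w' u', G.Adj w u → w ∈ T → u ∈ T → s(w, u) ≠ s(w', u') →
      ∃ s ∈ T, min (G.dist w s) (G.dist u s) ≠ min (G.dist w' s) (G.dist u' s) := by
    intro w u w' u' ha hw hu hne
    by_cases hw' : w ≠ w' ∧ w ≠ u'
    · exact ⟨w, hw, zero_end hc hw'.1 hw'.2⟩
    by_cases hu' : u ≠ w' ∧ u ≠ u'
    · exact ⟨u, hu, by rw [hswap]; exact zero_end hc hu'.1 hu'.2⟩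
    exfalso
    apply hne
    have hwu := ha.ne
    by_cases e1 : w = w'
    · subst e1
      have : u = u' := by
        by_contra h
        exact hu' ⟨fun h' => hwu h'.symm, h⟩
      rw [this]
    · have e2 : w = u' := by
        by_contra h
        exact hw' ⟨e1, h⟩
      subst e2
      have : u = w' := by
        by_contra h
        exact hu' ⟨h, fun h' => hwu h'.symm⟩
      rw [this, Sym2.eq_swap]
  refine isMixedResolving_of hc hr h1 ?_ ?_
  · intro t w u ha hle htw
    rcases hd w u ha hle with h | h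
    · rcases h3 w u ha h with ⟨hw, hu⟩ | ⟨hab, haT, hch, s, hs, hlt⟩
      · by_cases htw' : w = t
        · subst htw'
          refine ⟨u, hu, ?_⟩
          have : G.dist w u ≠ 0 := fun h0 => ha.ne (hc.dist_eq_zero_iff.mp h0)
          rw [SimpleGraph.dist_self]
          omega
        · refine ⟨w, hw, ?_⟩
          have : G.dist t w ≠ 0 := fun h0 => htw' (hc.dist_eq_zero_iff.mp h0).symm
          rw [SimpleGraph.dist_self]
          omega
      · by_cases hta : t = a
        · refine ⟨s, hs, ?_⟩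
          rcases hab with ⟨rfl, rfl⟩ | ⟨rfl, rfl⟩ <;> subst hta <;> omega
        · refine ⟨a, haT, ?_⟩
          have : G.dist t a ≠ 0 := fun h0 => hta (hc.dist_eq_zero_iff.mp h0)
          rcases hab with ⟨rfl, rfl⟩ | ⟨rfl, rfl⟩ <;> rw [SimpleGraph.dist_self] <;> omega
    · exact h2 t w u ha h htw
  · intro w u w' u' ha hle ha' hle' hww hne
    rcases hd w u ha hle with h | h <;> rcases hd w' u' ha' hle' with h' | h'
    · rcases h3 w u ha h with ⟨hw, hu⟩ | ⟨hab, haT, hch, s, hs, hlt⟩
      · exact hHH w u w' u' ha hw hu hne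
      · rcases h3 w' u' ha' h' with ⟨hw', hu'⟩ | ⟨hab', -⟩
        · obtain ⟨s, hs, hh⟩ := hHH w' u' w u ha' hw' hu' hne.symm
          exact ⟨s, hs, hh.symm⟩
        · exfalso
          apply hne
          rcases hab with ⟨rfl, rfl⟩ | ⟨rfl, rfl⟩ <;> rcases hab' with ⟨rfl, rfl⟩ | ⟨rfl, rfl⟩ <;>
            first | rfl | exact Sym2.eq_swap
    · exact hVH w' u' w u ha' h' ha h hww.symm
    · obtain ⟨s, hs, hh⟩ := hVH w u w' u' ha h ha' h' hww
      exact ⟨s, hs, hh.symm⟩
    · by_cases huu : u = u'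
      · subst huu
        exact h5 w w' u (fun hw => hne (by rw [hw])) ha h ha' h'
      · exact h4 w u w' u' ha h ha' h' hww huu

end assemble

end Pool.Agent.Helper18.MixedDim
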