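import Pool.Agent.Helper18.MixedDim

/-!
# Mixed metric dimension: the resolving sets
-/

set_option autoImplicit false

open SimpleGraph

namespace Pool.Agent.Helper18.MixedDim

variable {V : Type*} {G : SimpleGraph V} {r : V} {par : V → V}

/-- `s` is a descendant of exactly one of `w`, `w'`. -/
def Delta (G : SimpleGraph V) (r w w' s : V) : Prop :=
  (Desc G r w s ∧ ¬ Desc G r w' s) ∨ (Desc G r w' s ∧ ¬ Desc G r w s)

lemma Delta.ne (hc : G.Connected) {w w' s : V} (h : Delta G r w w' s)
    (hd : G.dist r w = G.dist r w') : G.dist w s ≠ G.dist w' s := by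
  unfold Delta Desc at h
  omega

lemma Delta.edge_ne (hc : G.Connected) {w u w' u' s : V} (h : Delta G r u u' s)
    (hd : G.dist r u = G.dist r w + 1) (hd' : G.dist r u' = G.dist r w' + 1)
    (hww : G.dist r w = G.dist r w') :
    min (G.dist w s) (G.dist u s) ≠ min (G.dist w' s) (G.dist u' s) := by
  have h1 := dep_le (r := r) hc w s
  have h2 := dep_le (r := r) hc w' s
  have h3 := dep_le (r := r) hc u s
  have h4 := dep_le (r := r) hc u' s
  unfold Delta Desc at h
  omega

/-- A descendant of the lower end of a vertical edge resolves it from the vertices of the same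
level. -/
lemma vert_ne (hc : G.Connected) {t w u s : V} (h : Desc G r u s)
    (hd : G.dist r u = G.dist r w + 1) (ht : G.dist r t = G.dist r w) :
    G.dist t s ≠ min (G.dist w s) (G.dist u s) := by
  have h1 := dep_le (r := r) hc t s
  unfold Desc at h
  omega

/-- Edges with a common lower end are resolved by the upper end of a non-tree edge. -/
lemma same_bottom (hc : G.Connected) (hpar : IsPar G r par) {T : Finset V} {w w' u : V}
    (hT : ∀ p, NT G r par u p → G.dist r p + 1 = G.dist r u → p ∈ T)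
    (hne : w ≠ w') (ha : G.Adj w u) (hd : G.dist r u = G.dist r w + 1)
    (ha' : G.Adj w' u) (hd' : G.dist r u = G.dist r w' + 1) :
    ∃ s ∈ T, min (G.dist w s) (G.dist u s) ≠ min (G.dist w' s) (G.dist u s) := by
  rcases nt_or_nt hpar hne ha.symm hd.symm ha'.symm hd'.symm with h | h
  · exact ⟨w, hT w h hd.symm, zero_end hc hne ha.ne⟩
  · exact ⟨w', hT w' h hd'.symm, (zero_end hc hne.symm ha'.ne).symm⟩

/-- The set of the root and all ends of non-tree edges is mixed resolving. -/
theorem base [Finite V] (hc : G.Connected) (hpar : IsPar G r par)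
    (hdeg : ∀ v : V, ∃ u u', u ≠ u' ∧ G.Adj v u ∧ G.Adj v u') {S : Finset V} (hr : r ∈ S)
    (hS : ∀ p q, NT G r par p q → p ∈ S) : IsMixedResolving G S := by
  have hC2 : ∀ w w', w ≠ w' → G.dist r w = G.dist r w' → ∃ s ∈ S, Delta G r w w' s := by
    intro w w' hne hd
    by_cases hcom : ∃ p, ¬ False ∧ Desc G r w p ∧ Desc G r w' p
    · obtain ⟨p, p₁, -, hnt, -, hD⟩ := merge hc hpar (fun _ => False) (fun _ _ h => h.elim)
        hne hd hcom
      exact ⟨p₁, hS _ _ hnt.symm, hD⟩
    · obtain ⟨l, hl, -, u, hu⟩ := exists_leaf hc hpar hdeg w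
      exact ⟨l, hS _ _ hu, Or.inl ⟨hl, fun h => hcom ⟨l, not_false, hl, h⟩⟩⟩
  refine assemble hc hr r r ?_ ?_ ?_ ?_ ?_
  · intro w w' hne hd
    obtain ⟨s, hs, h⟩ := hC2 w w' hne hd
    exact ⟨s, hs, h.ne hc hd⟩
  · intro t w u ha hd ht
    obtain ⟨l, hl, -, u', hu⟩ := exists_leaf hc hpar hdeg u
    exact ⟨l, hS _ _ hu, vert_ne hc hl hd ht⟩
  · intro w u ha hd
    have h := nt_of_horiz hpar ha hd
    exact Or.inl ⟨hS _ _ h, hS _ _ h.symm⟩
  · intro w u w' u' ha hd ha' hd' hww hne
    obtain ⟨s, hs, h⟩ := hC2 u u' hne (by omega)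
    exact ⟨s, hs, h.edge_ne hc hd hd' hww⟩
  · intro w w' u hne ha hd ha' hd'
    exact same_bottom hc hpar (fun p hp _ => hS _ _ hp.symm) hne ha hd ha' hd'

/-- All elements of `S` below `w` are among `x`, `y`. -/
def Theta (G : SimpleGraph V) (r : V) (S : Finset V) (x y w : V) : Prop :=
  ∀ s ∈ S, Desc G r w s → s = x ∨ s = y

lemma Theta.child (hc : G.Connected) {S : Finset V} {x y w u : V} (h : Theta G r S x y w)
    (ha : G.Adj w u) (hd : G.dist r u = G.dist r w + 1) : Theta G r S x y u :=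
  fun s hs hD => h s hs (desc_of_child hc ha hd hD)

lemma Theta.self {S : Finset V} {x y w : V} (h : Theta G r S x y w) (hw : w ∈ S) :
    w = x ∨ w = y := h w hw (desc_refl w)

lemma desc_of_max (hc : G.Connected) {a s : V} (hmax : ∀ w, G.dist r w ≤ G.dist r a)
    (h : Desc G r a s) : s = a := by
  have := hmax s
  unfold Desc at h
  have h0 : G.dist a s = 0 := by omega
  exact (hc.dist_eq_zero_iff.mp h0).symm

lemma Theta.of_max (hc : G.Connected) {S : Finset V} {x y a : V}
    (hmax : ∀ w, G.dist r w ≤ G.dist r a) (ha : a = x ∨ a = y) : Theta G r S x y a := by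
  intro s _ hD
  rw [desc_of_max hc hmax hD]
  exact ha

lemma dep_cases (hc : G.Connected) {w u : V} (ha : G.Adj w u) :
    G.dist r u + 1 = G.dist r w ∨ G.dist r u = G.dist r w + 1 ∨ G.dist r u = G.dist r w := by
  have h1 := dist_le_succ hc ha r
  have h2 := dist_le_succ hc ha.symm r
  omega

/-- The key structural lemma: under the hypotheses, `S` consists of `r`, `x`, `y` only. -/
lemma key_lemma [Finite V] (hc : G.Connected) (hpar : IsPar G r par)
    (h2 : ∀ v : V, (G.induce ({v}ᶜ : Set V)).Connected)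
    {S : Finset V} (hr : r ∈ S) (hS : ∀ p q, NT G r par p q → p ∈ S) {x y : V}
    (hxr : r ≠ x) (hyr : r ≠ y) (X : V → Prop)
    (hX : ∀ p c, X p → G.Adj p c → G.dist r c = G.dist r p + 1 → X c)
    (hXS : ∀ s ∈ S, s ≠ x → s ≠ y → ¬ X s)
    (hm : ∀ p p₁, ¬ X p → NT G r par p p₁ → G.dist r p₁ + 1 = G.dist r p → p₁ ≠ x ∧ p₁ ≠ y)
    (L : ℕ) (D : V → ℕ)
    (hlev : ∀ s ∈ S, s ≠ x → s ≠ y → ∀ w v, Theta G r S x y w → ¬ Theta G r S x y v →
      G.Adj w v → G.dist r v + 1 = G.dist r w → G.dist v s + L = D s + G.dist r v)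
    (hcl : ∀ w u, Theta G r S x y w → G.Adj w u →
      Theta G r S x y u ∨ G.dist r u + 1 = G.dist r w)
    (hne : ∃ w, Theta G r S x y w) :
    ∀ s ∈ S, s = r ∨ s = x ∨ s = y := by
  have hrT : ¬ Theta G r S x y r := fun h => (h.self hr).elim hxr hyr
  obtain ⟨w₀, hw₀⟩ := hne
  -- a boundary vertex
  obtain ⟨w₁, v, hw₁, hv, hadj⟩ : ∃ w v, Theta G r S x y w ∧ ¬ Theta G r S x y v ∧ G.Adj w v := by
    obtain ⟨p⟩ := hc.preconnected w₀ r
    obtain ⟨d, -, h1, h2⟩ := p.exists_boundary_dart {w | Theta G r S x y w} hw₀ hrT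
    exact ⟨d.fst, d.snd, h1, h2, d.adj⟩
  -- existence of an element of `S` below a vertex outside `Θ`
  have hex : ∀ v, ¬ Theta G r S x y v → ∃ s ∈ S, s ≠ x ∧ s ≠ y ∧ Desc G r v s := by
    intro v hv
    unfold Theta at hv
    push Not at hv
    obtain ⟨s, hs, hD, h1, h2⟩ := hv
    exact ⟨s, hs, h1, h2, hD⟩
  have hle : ∀ w v w' v', Theta G r S x y w → ¬ Theta G r S x y v → G.Adj w v →
      Theta G r S x y w' → ¬ Theta G r S x y v' → G.Adj w' v' → G.dist r v ≤ G.dist r v' := by
    intro w v w' v' hw hv ha hw' hv' ha'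
    obtain ⟨s, hs, hsx, hsy, hD⟩ := hex v hv
    have e1 := hlev s hs hsx hsy w v hw hv ha ((hcl w v hw ha).resolve_left hv)
    have e2 := hlev s hs hsx hsy w' v' hw' hv' ha' ((hcl w' v' hw' ha').resolve_left hv')
    have e3 := dep_le (r := r) hc v' s
    unfold Desc at hD
    omega
  have huniq : ∀ w v w' v', Theta G r S x y w → ¬ Theta G r S x y v → G.Adj w v →
      Theta G r S x y w' → ¬ Theta G r S x y v' → G.Adj w' v' → v = v' := by
    intro w v w' v' hw hv ha hw' hv' ha'
    by_contra hvv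
    have hd : G.dist r v = G.dist r v' :=
      le_antisymm (hle w v w' v' hw hv ha hw' hv' ha') (hle w' v' w v hw' hv' ha' hw hv ha)
    have heq : ∀ s ∈ S, s ≠ x → s ≠ y → G.dist v s = G.dist v' s := by
      intro s hs hsx hsy
      have e1 := hlev s hs hsx hsy w v hw hv ha ((hcl w v hw ha).resolve_left hv)
      have e2 := hlev s hs hsx hsy w' v' hw' hv' ha' ((hcl w' v' hw' ha').resolve_left hv')
      omega
    obtain ⟨s, hs, hsx, hsy, hD⟩ := hex v hv
    have hD' : Desc G r v' s := by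
      have := heq s hs hsx hsy
      unfold Desc at hD ⊢
      omega
    obtain ⟨p, p₁, hpX, hnt, hdp, hDel⟩ := merge hc hpar X hX hvv hd
      ⟨s, hXS s hs hsx hsy, hD, hD'⟩
    have hp₁ := hm p p₁ hpX hnt hdp
    exact Delta.ne hc hDel hd (heq p₁ (hS _ _ hnt.symm) hp₁.1 hp₁.2)
  have hall : ∀ t, t ≠ v → Theta G r S x y t := by
    intro t htv
    by_contra ht
    have hwv : w₀ ≠ v := by rintro rfl; exact hv hw₀
    obtain ⟨p⟩ := (h2 v).preconnected ⟨w₀, hwv⟩ ⟨t, htv⟩
    obtain ⟨d, -, h1, h2⟩ := p.exists_boundary_dart {w | Theta G r S x y w.1} hw₀ ht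
    have hadj' : G.Adj d.fst.1 d.snd.1 := d.adj
    have := huniq w₁ v d.fst.1 d.snd.1 hw₁ hv hadj h1 h2 hadj'
    exact d.snd.2 this.symm
  have hvr : r = v := by
    by_contra h
    exact hrT (hall r h)
  intro s hs
  by_cases hsr : s = r
  · exact Or.inl hsr
  · exact Or.inr ((hall s (by rw [← hvr]; exact hsr)).self hs)

/-- Case H: the existence of a resolving vertex. -/
lemma existsH [Finite V] (hc : G.Connected) (hpar : IsPar G r par)
    (hdeg : ∀ v : V, ∃ u u', u ≠ u' ∧ G.Adj v u ∧ G.Adj v u')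
    (h2 : ∀ v : V, (G.induce ({v}ᶜ : Set V)).Connected)
    {S : Finset V} (hr : r ∈ S) (hS : ∀ p q, NT G r par p q → p ∈ S)
    (hNC : ∀ p q q', NT G r par p q → NT G r par p q' → q = q') {a b : V}
    (hab : NT G r par a b) (hdab : G.dist r a = G.dist r b)
    (hmax : ∀ w, G.dist r w ≤ G.dist r a)
    (hEdge : ∃ p q, NT G r par p q ∧ p ≠ a ∧ p ≠ b) :
    ∃ s ∈ S, s ≠ a ∧ s ≠ b ∧ G.dist a s ≠ G.dist b s := by
  by_contra hcon
  push Not at hcon
  have hmaxb : ∀ w, G.dist r w ≤ G.dist r b := by rw [← hdab]; exact hmax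
  have hra : r ≠ a := by
    rintro rfl
    have : G.dist r b = 0 := by rw [← hdab]; simp
    exact hab.1.ne (hc.dist_eq_zero_iff.mp this)
  have hrb : r ≠ b := by
    rintro rfl
    have : G.dist r a = 0 := by rw [hdab]; simp
    exact hab.1.ne (hc.dist_eq_zero_iff.mp this).symm
  have hTa : Theta G r S a b a := Theta.of_max hc hmax (Or.inl rfl)
  have hTb : Theta G r S a b b := Theta.of_max hc hmaxb (Or.inr rfl)
  -- non-tree edges at elements of `Θ`
  have hNT : ∀ w v, Theta G r S a b w → NT G r par w v → (w = a ∧ v = b) ∨ (w = b ∧ v = a) := by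
    intro w v hw hnt
    rcases hw.self (hS _ _ hnt) with rfl | rfl
    · exact Or.inl ⟨rfl, hNC _ _ _ hnt hab⟩
    · exact Or.inr ⟨rfl, hNC _ _ _ hnt hab.symm⟩
  have hpar1 : ∀ w, Theta G r S a b w → ∀ v, G.Adj w v → G.dist r v + 1 = G.dist r w →
      par w = v := by
    intro w hw v ha hd
    by_contra hne
    rcases hNT w v hw (nt_of_not_par hpar ha (by omega) hne) with ⟨rfl, rfl⟩ | ⟨rfl, rfl⟩ <;> omega
  have hclimb : ∀ s ∈ S, s ≠ a → s ≠ b → ∀ w, Theta G r S a b w → ∀ v, G.Adj w v →
      G.dist r v + 1 = G.dist r w → G.dist v s + 1 = G.dist w s := by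
    intro s hs hsa hsb
    refine climb hc s (fun w => Theta G r S a b w) ?_ ?_ ?_
    · rintro w hw rfl
      exact (hw.self hs).elim hsa hsb
    · intro w hw v v' ha hd ha' hd'
      rw [← hpar1 w hw v ha hd, ← hpar1 w hw v' ha' hd']
    · intro w hw u ha
      rcases dep_cases (r := r) hc ha with h | h | h
      · exact Or.inl h
      · exact Or.inr (Or.inl ⟨hw.child hc ha h, h⟩)
      · right; right
        rcases hNT w u hw (nt_of_horiz hpar ha h) with ⟨rfl, rfl⟩ | ⟨rfl, rfl⟩
        · exact (hcon s hs hsa hsb).le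
        · exact (hcon s hs hsa hsb).ge
  have hres := key_lemma hc hpar h2 hr hS hra hrb (fun _ => False) (fun _ _ h => h.elim)
    (fun _ _ _ _ => not_false) (fun p p₁ _ hnt hd => ⟨by
      rintro rfl
      have := hmax p
      omega, by
      rintro rfl
      have := hmaxb p
      omega⟩) (G.dist r a) (fun s => G.dist a s) (by
      intro s hs hsa hsb w v hw hv ha hd
      obtain ⟨l, hl, hch, u, hu⟩ := exists_leaf hc hpar hdeg w
      have hlS := hS _ _ hu
      have h1 := hclimb s hs hsa hsb w hw v ha hd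
      have h3 := climb_path hc s l (fun w => Theta G r S a b w)
        (fun w hw u ha hd _ => hw.child hc ha hd) (hclimb s hs hsa hsb) w hw hl
      have h4 := hcon s hs hsa hsb
      unfold Desc at hl
      rcases hw l hlS hl with rfl | rfl <;> omega) (by
      intro w u hw ha
      rcases dep_cases (r := r) hc ha with h | h | h
      · exact Or.inr h
      · exact Or.inl (hw.child hc ha h)
      · left
        rcases hNT w u hw (nt_of_horiz hpar ha h) with ⟨rfl, rfl⟩ | ⟨rfl, rfl⟩
        · exact hTb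
        · exact hTa) ⟨a, hTa⟩
  obtain ⟨p, q, hpq, hpa, hpb⟩ := hEdge
  have hpr : p = r := by
    rcases hres p (hS _ _ hpq) with h | h | h
    · exact h
    · exact absurd h hpa
    · exact absurd h hpb
  rcases hres q (hS _ _ hpq.symm) with h | h | h
  · exact hpq.1.ne (by rw [hpr, h])
  · subst h
    exact hpb (hNC _ _ _ hpq.symm hab)
  · subst h
    exact hpa (hNC _ _ _ hpq.symm hab.symm)

/-- Case M: the existence of a resolving vertex. -/
lemma existsM [Finite V] (hc : G.Connected) (hpar : IsPar G r par)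
    (hdeg : ∀ v : V, ∃ u u', u ≠ u' ∧ G.Adj v u ∧ G.Adj v u')
    (h2 : ∀ v : V, (G.induce ({v}ᶜ : Set V)).Connected)
    {S : Finset V} (hr : r ∈ S) (hS : ∀ p q, NT G r par p q → p ∈ S)
    (hNC : ∀ p q q', NT G r par p q → NT G r par p q' → q = q') {x y : V}
    (hyx : NT G r par y x) (hdxy : G.dist r x + 1 = G.dist r y)
    (hmax : ∀ w, G.dist r w ≤ G.dist r y)
    (hEdge : ∃ p q, NT G r par p q ∧ p ≠ x ∧ p ≠ y) :
    ∃ s ∈ S, s ≠ x ∧ s ≠ y ∧ G.dist x s ≠ G.dist (par y) s := by
  by_contra hcon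
  push Not at hcon
  have hry : r ≠ y := by
    rintro rfl
    simp at hdxy
  obtain ⟨hax, hdx'⟩ := hpar y hry.symm
  have hxx' : x ≠ par y := fun h => hyx.2.1 ⟨hry.symm, h.symm⟩
  have hdd : G.dist r x = G.dist r (par y) := by omega
  have hrx : r ≠ x := by
    rintro rfl
    have : G.dist r (par y) = 0 := by rw [← hdd]; simp
    exact hxx' (hc.dist_eq_zero_iff.mp this)
  -- neighbours of `y`
  have hnb : ∀ u, G.Adj y u → u = x ∨ u = par y := by
    intro u hu
    by_cases h : par y = u
    · exact Or.inr h.symm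
    · exact Or.inl (hNC _ _ _ (nt_of_not_par hpar hu (hmax u) h) hyx)
  have hmerge : ∀ p p₁, ¬ (p = y) → NT G r par p p₁ → G.dist r p₁ + 1 = G.dist r p →
      p₁ ≠ x ∧ p₁ ≠ y := by
    intro p p₁ hp hnt hd
    constructor
    · rintro rfl
      exact hp (hNC _ _ _ hnt.symm hyx.symm)
    · rintro rfl
      have := hmax p
      omega
  have hXc : ∀ p c, p = y → G.Adj p c → G.dist r c = G.dist r p + 1 → c = y := by
    rintro p c rfl _ h
    have := hmax c
    omega
  have hTx : Theta G r S x y x := by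
    intro s hs hD
    by_contra hne
    push Not at hne
    have h1 := hcon s hs hne.1 hne.2
    have hD' : Desc G r (par y) s := by
      unfold Desc at hD ⊢
      omega
    obtain ⟨p, p₁, hpX, hnt, hdp, hDel⟩ := merge hc hpar (fun v => v = y) hXc hxx' hdd
      ⟨s, hne.2, hD, hD'⟩
    have hp₁ := hmerge p p₁ hpX hnt hdp
    exact Delta.ne hc hDel hdd (hcon p₁ (hS _ _ hnt.symm) hp₁.1 hp₁.2)
  have hTx' : Theta G r S x y (par y) := by
    intro s hs hD
    by_contra hne
    push Not at hne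
    have h1 := hcon s hs hne.1 hne.2
    have hD' : Desc G r x s := by
      unfold Desc at hD ⊢
      omega
    rcases hTx s hs hD' with h | h
    · exact hne.1 h
    · exact hne.2 h
  have hTy : Theta G r S x y y := Theta.of_max hc hmax (Or.inr rfl)
  -- non-tree edges at elements of `Θ`
  have hNT : ∀ w v, Theta G r S x y w → NT G r par w v → (w = x ∧ v = y) ∨ (w = y ∧ v = x) := by
    intro w v hw hnt
    rcases hw.self (hS _ _ hnt) with rfl | rfl
    · exact Or.inl ⟨rfl, hNC _ _ _ hnt hyx.symm⟩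
    · exact Or.inr ⟨rfl, hNC _ _ _ hnt hyx⟩
  have hpar1 : ∀ w, Theta G r S x y w → w ≠ y → ∀ v, G.Adj w v → G.dist r v + 1 = G.dist r w →
      par w = v := by
    intro w hw hwy v ha hd
    by_contra hne
    rcases hNT w v hw (nt_of_not_par hpar ha (by omega) hne) with ⟨rfl, rfl⟩ | ⟨rfl, rfl⟩
    · omega
    · exact hwy rfl
  have hnoh : ∀ w u, Theta G r S x y w → G.Adj w u → G.dist r u ≠ G.dist r w := by
    intro w u hw ha hd
    rcases hNT w u hw (nt_of_horiz hpar ha hd) with ⟨rfl, rfl⟩ | ⟨rfl, rfl⟩ <;> omega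
  have hclimb : ∀ s ∈ S, s ≠ x → s ≠ y → ∀ w, (Theta G r S x y w ∧ w ≠ y) → ∀ v, G.Adj w v →
      G.dist r v + 1 = G.dist r w → G.dist v s + 1 = G.dist w s := by
    intro s hs hsx hsy
    refine climb hc s (fun w => Theta G r S x y w ∧ w ≠ y) ?_ ?_ ?_
    · rintro w ⟨hw, -⟩ rfl
      exact (hw.self hs).elim hsx hsy
    · rintro w ⟨hw, hwy⟩ v v' ha hd ha' hd'
      rw [← hpar1 w hw hwy v ha hd, ← hpar1 w hw hwy v' ha' hd']
    · rintro w ⟨hw, hwy⟩ u ha
      rcases dep_cases (r := r) hc ha with h | h | h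
      · exact Or.inl h
      · by_cases huy : u = y
        · right; right
          subst huy
          obtain ⟨z, hz, hdz⟩ := exists_step hc hsy.symm
          have e := hcon s hs hsx hsy
          rcases hnb z hz with rfl | rfl <;> rcases hnb w ha.symm with rfl | rfl <;> omega
        · exact Or.inr (Or.inl ⟨⟨hw.child hc ha h, huy⟩, h⟩)
      · exact absurd h (hnoh w u hw ha)
  have hres := key_lemma hc hpar h2 hr hS hrx hry (fun v => v = y) hXc
    (fun s _ _ h => h) hmerge (G.dist r x) (fun s => G.dist x s) (by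
      intro s hs hsx hsy w v hw hv ha hd
      have hwy : w ≠ y := by
        rintro rfl
        rcases hnb v ha with rfl | rfl
        · exact hv hTx
        · exact hv hTx'
      obtain ⟨l, hl, hch, u, hu⟩ := exists_leaf hc hpar hdeg w
      have hlS := hS _ _ hu
      have hly : l = y := by
        rcases hw l hlS hl with rfl | h
        · have := hch y hyx.1.symm
          omega
        · exact h
      subst hly
      obtain ⟨p, hp, hdp, hDp⟩ := desc_parent hc hl hwy
      have h1 := hclimb s hs hsx hsy w ⟨hw, hwy⟩ v ha hd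
      have h3 := climb_path hc s p (fun w => Theta G r S x l w ∧ w ≠ l)
        (fun w hw u ha hd hDu => ⟨hw.1.child hc ha hd, by
          rintro rfl
          unfold Desc at hDu
          omega⟩) (hclimb s hs hsx hsy) w ⟨hw, hwy⟩ hDp
      have h4 := hcon s hs hsx hsy
      unfold Desc at hDp
      rcases hnb p hp with rfl | rfl <;> omega) (by
      intro w u hw ha
      rcases dep_cases (r := r) hc ha with h | h | h
      · exact Or.inr h
      · exact Or.inl (hw.child hc ha h)
      · exact absurd h (hnoh w u hw ha)) ⟨y, hTy⟩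
  obtain ⟨p, q, hpq, hpa, hpb⟩ := hEdge
  have hpr : p = r := by
    rcases hres p (hS _ _ hpq) with h | h | h
    · exact h
    · exact absurd h hpa
    · exact absurd h hpb
  rcases hres q (hS _ _ hpq.symm) with h | h | h
  · exact hpq.1.ne (by rw [hpr, h])
  · subst h
    exact hpb (hNC _ _ _ hpq.symm hyx.symm)
  · subst h
    exact hpa (hNC _ _ _ hpq.symm hyx)

end Pool.Agent.Helper18.MixedDim
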