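import Pool.Agent.Helper18.MixedDim2

/-!
# Mixed metric dimension: the two smaller resolving sets
-/

set_option autoImplicit false

open SimpleGraph

namespace Pool.Agent.Helper18.MixedDim

variable {V : Type*} {G : SimpleGraph V} {r : V} {par : V → V}

/-- Case H: both ends of the special non-tree edge lie on the last level. -/
theorem caseH [Finite V] [DecidableEq V] (hc : G.Connected) (hpar : IsPar G r par)
    (hdeg : ∀ v : V, ∃ u u', u ≠ u' ∧ G.Adj v u ∧ G.Adj v u')
    {S : Finset V} (hr : r ∈ S) (hS : ∀ p q, NT G r par p q → p ∈ S)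
    (hNC : ∀ p q q', NT G r par p q → NT G r par p q' → q = q') {a b : V}
    (hab : NT G r par a b) (hdab : G.dist r a = G.dist r b)
    (hmax : ∀ w, G.dist r w ≤ G.dist r a) {s₀ : V} (hs₀ : s₀ ∈ S) (hs₀b : s₀ ≠ b)
    (hlt : G.dist b s₀ < G.dist a s₀) :
    IsMixedResolving G (S.erase b) := by
  have hmaxb : ∀ w, G.dist r w ≤ G.dist r b := by rw [← hdab]; exact hmax
  have hrb : r ≠ b := by
    rintro rfl
    have : G.dist r a = 0 := by rw [hdab]; simp
    exact hab.1.ne (hc.dist_eq_zero_iff.mp this).symm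
  have haS : a ∈ S.erase b := Finset.mem_erase.mpr ⟨hab.1.ne, hS _ _ hab⟩
  have hs₀' : s₀ ∈ S.erase b := Finset.mem_erase.mpr ⟨hs₀b, hs₀⟩
  -- ends of non-tree edges other than `b`
  have hS' : ∀ p q, NT G r par p q → p ≠ b → p ∈ S.erase b :=
    fun p q h hp => Finset.mem_erase.mpr ⟨hp, hS _ _ h⟩
  have hC2 : ∀ w w', w ≠ w' → G.dist r w = G.dist r w' →
      ∃ s ∈ S.erase b, Delta G r w w' s := by
    intro w w' hne hd
    by_cases hcom : ∃ p, ¬ False ∧ Desc G r w p ∧ Desc G r w' p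
    · obtain ⟨p, p₁, -, hnt, hdp, hD⟩ := merge hc hpar (fun _ => False) (fun _ _ h => h.elim)
        hne hd hcom
      refine ⟨p₁, hS' _ _ hnt.symm ?_, hD⟩
      rintro rfl
      have := hmaxb p
      omega
    · obtain ⟨l, hl, -, u, hu⟩ := exists_leaf hc hpar hdeg w
      obtain ⟨l', hl', -, u', hu'⟩ := exists_leaf hc hpar hdeg w'
      by_cases hlb : l = b
      · have hlb' : l' ≠ b := by
          rintro rfl
          exact hcom ⟨l', not_false, by rw [← hlb]; exact hl, hl'⟩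
        exact ⟨l', hS' _ _ hu' hlb', Or.inr ⟨hl', fun h => hcom ⟨l', not_false, h, hl'⟩⟩⟩
      · exact ⟨l, hS' _ _ hu hlb, Or.inl ⟨hl, fun h => hcom ⟨l, not_false, hl, h⟩⟩⟩
  -- the set of vertices having only `b` below them
  have hNT : ∀ w v, Theta G r S b b w → NT G r par w v → w = b ∧ v = a := by
    intro w v hw hnt
    have hwb : w = b := (hw.self (hS _ _ hnt)).elim id id
    subst hwb
    exact ⟨rfl, hNC _ _ _ hnt hab.symm⟩
  have hpar1 : ∀ w, Theta G r S b b w → ∀ v, G.Adj w v → G.dist r v + 1 = G.dist r w →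
      par w = v := by
    intro w hw v ha hd
    by_contra hne
    obtain ⟨rfl, rfl⟩ := hNT w v hw (nt_of_not_par hpar ha (by omega) hne)
    omega
  have hclimb : ∀ w, Theta G r S b b w → ∀ v, G.Adj w v →
      G.dist r v + 1 = G.dist r w → G.dist v s₀ + 1 = G.dist w s₀ := by
    refine climb hc s₀ (fun w => Theta G r S b b w) ?_ ?_ ?_
    · rintro w hw rfl
      exact (hw.self hs₀).elim hs₀b hs₀b
    · intro w hw v v' ha hd ha' hd'
      rw [← hpar1 w hw v ha hd, ← hpar1 w hw v' ha' hd']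
    · intro w hw u ha
      rcases dep_cases (r := r) hc ha with h | h | h
      · exact Or.inl h
      · exact Or.inr (Or.inl ⟨hw.child hc ha h, h⟩)
      · right; right
        obtain ⟨rfl, rfl⟩ := hNT w u hw (nt_of_horiz hpar ha h)
        exact hlt.le
  have hkey : ∀ t w u, G.Adj w u → G.dist r u = G.dist r w + 1 → G.dist r t = G.dist r w →
      Theta G r S b b u → ∃ s ∈ S.erase b, G.dist t s ≠ min (G.dist w s) (G.dist u s) := by
    intro t w u ha hd ht hu
    obtain ⟨l, hl, hch, v, hv⟩ := exists_leaf hc hpar hdeg u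
    have hlb : l = b := (hu l (hS _ _ hv) hl).elim id id
    subst hlb
    have h1 := hclimb u hu w ha.symm hd.symm
    have h2 := climb_path hc s₀ l (fun w => Theta G r S l l w)
        (fun w hw u ha hd _ => hw.child hc ha hd) hclimb u hu hl
    by_cases hta : Desc G r t a
    · refine ⟨s₀, hs₀', ?_⟩
      have h3 : G.dist a s₀ ≤ G.dist a t + G.dist t s₀ := hc.dist_triangle
      rw [dist_comm (u := a) (v := t)] at h3
      unfold Desc at hta hl
      omega
    · refine ⟨a, haS, ?_⟩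
      have h3 := dist_lt_of_not_desc hc hta
      have h4 : G.dist u a ≤ G.dist u l + G.dist l a := hc.dist_triangle
      rw [dist_eq_one_iff_adj.mpr hab.1.symm] at h4
      unfold Desc at hl
      omega
  refine assemble hc (Finset.mem_erase.mpr ⟨hrb, hr⟩) a b ?_ ?_ ?_ ?_ ?_
  · intro w w' hne hd
    obtain ⟨s, hs, h⟩ := hC2 w w' hne hd
    exact ⟨s, hs, h.ne hc hd⟩
  · intro t w u ha hd ht
    by_cases hu : Theta G r S b b u
    · exact hkey t w u ha hd ht hu
    · unfold Theta at hu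
      push Not at hu
      obtain ⟨s, hs, hD, hsb, -⟩ := hu
      exact ⟨s, Finset.mem_erase.mpr ⟨hsb, hs⟩, vert_ne hc hD hd ht⟩
  · intro w u ha hd
    have h := nt_of_horiz hpar ha hd
    by_cases hwb : w = b
    · subst hwb
      have := hNC _ _ _ h hab.symm
      subst this
      exact Or.inr ⟨Or.inr ⟨rfl, rfl⟩, haS, fun c _ => hmax c, s₀, hs₀', hlt⟩
    · by_cases hub : u = b
      · subst hub
        have := hNC _ _ _ h.symm hab.symm
        subst this
        exact Or.inr ⟨Or.inl ⟨rfl, rfl⟩, haS, fun c _ => hmax c, s₀, hs₀', hlt⟩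
      · exact Or.inl ⟨hS' _ _ h hwb, hS' _ _ h.symm hub⟩
  · intro w u w' u' ha hd ha' hd' hww hne
    obtain ⟨s, hs, h⟩ := hC2 u u' hne (by omega)
    exact ⟨s, hs, h.edge_ne hc hd hd' hww⟩
  · intro w w' u hne ha hd ha' hd'
    refine same_bottom hc hpar (fun p hp hdp => hS' _ _ hp.symm ?_) hne ha hd ha' hd'
    rintro rfl
    have := hmaxb u
    omega

/-- Case M, main computation: the two sides below the two neighbours `p`, `q` of `y`. -/
lemma caseM_aux [Finite V] (hc : G.Connected) (hpar : IsPar G r par)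
    (hdeg : ∀ v : V, ∃ u u', u ≠ u' ∧ G.Adj v u ∧ G.Adj v u')
    {S : Finset V} (hS : ∀ p q, NT G r par p q → p ∈ S)
    (hNC : ∀ p q q', NT G r par p q → NT G r par p q' → q = q') {x y : V}
    (hyx : NT G r par y x) (hdxy : G.dist r x + 1 = G.dist r y)
    (hmax : ∀ w, G.dist r w ≤ G.dist r y) {s₀ : V} (hs₀ : s₀ ∈ S) (hs₀x : s₀ ≠ x)
    (hs₀y : s₀ ≠ y) {p q : V} (hap : G.Adj y p) (haq : G.Adj y q)
    (hdp : G.dist r p + 1 = G.dist r y) (hdq : G.dist r q + 1 = G.dist r y)
    (hnb : ∀ u, G.Adj y u → u = p ∨ u = q) (hlt : G.dist p s₀ < G.dist q s₀)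
    {w w' : V} (hd : G.dist r w = G.dist r w') (hw : Theta G r S x y w) (hwy : w ≠ y)
    (hwp : Desc G r w p) (hwq : ¬ Desc G r w q) (hwq' : Desc G r w' q) :
    G.dist w s₀ < G.dist w' s₀ ∧
      ∀ v v', G.Adj w v → G.dist r v + 1 = G.dist r w → G.Adj w' v' →
        G.dist r v' + 1 = G.dist r w' →
        min (G.dist v s₀) (G.dist w s₀) < min (G.dist v' s₀) (G.dist w' s₀) := by
  have hNT : ∀ w v, Theta G r S x y w → NT G r par w v → (w = x ∧ v = y) ∨ (w = y ∧ v = x) := by
    intro w v hw hnt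
    rcases hw.self (hS _ _ hnt) with rfl | rfl
    · exact Or.inl ⟨rfl, hNC _ _ _ hnt hyx.symm⟩
    · exact Or.inr ⟨rfl, hNC _ _ _ hnt hyx⟩
  have hpar1 : ∀ w, Theta G r S x y w → w ≠ y → ∀ v, G.Adj w v → G.dist r v + 1 = G.dist r w →
      par w = v := by
    intro w hw hwy v ha hd
    by_contra hne
    rcases hNT w v hw (nt_of_not_par hpar ha (by omega) hne) with ⟨rfl, rfl⟩ | ⟨rfl, rfl⟩
    · omega
    · exact hwy rfl
  have hnoh : ∀ w u, Theta G r S x y w → G.Adj w u → G.dist r u ≠ G.dist r w := by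
    intro w u hw ha hd
    rcases hNT w u hw (nt_of_horiz hpar ha hd) with ⟨rfl, rfl⟩ | ⟨rfl, rfl⟩ <;> omega
  have hclimb : ∀ w, (Theta G r S x y w ∧ w ≠ y ∧ ¬ Desc G r w q) → ∀ v, G.Adj w v →
      G.dist r v + 1 = G.dist r w → G.dist v s₀ + 1 = G.dist w s₀ := by
    refine climb hc s₀ (fun w => Theta G r S x y w ∧ w ≠ y ∧ ¬ Desc G r w q) ?_ ?_ ?_
    · rintro w ⟨hw, -⟩ rfl
      exact (hw.self hs₀).elim hs₀x hs₀y
    · rintro w ⟨hw, hwy, -⟩ v v' ha hd ha' hd'
      rw [← hpar1 w hw hwy v ha hd, ← hpar1 w hw hwy v' ha' hd']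
    · rintro w ⟨hw, hwy, hwq⟩ u ha
      rcases dep_cases (r := r) hc ha with h | h | h
      · exact Or.inl h
      · by_cases huy : u = y
        · right; right
          subst huy
          rcases hnb w ha.symm with rfl | rfl
          · obtain ⟨z, hz, hdz⟩ := exists_step hc hs₀y.symm
            rcases hnb z hz with rfl | rfl <;> omega
          · exact absurd (desc_refl w) hwq
        · exact Or.inr (Or.inl ⟨⟨hw.child hc ha h, huy,
            fun hD => hwq (desc_of_child hc ha h hD)⟩, h⟩)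
      · exact absurd h (hnoh w u hw ha)
  have h3 := climb_path hc s₀ p (fun w => Theta G r S x y w ∧ w ≠ y ∧ ¬ Desc G r w q)
    (fun w hw u ha hd hDu => ⟨hw.1.child hc ha hd, by
      rintro rfl
      unfold Desc at hDu
      omega, fun hD => hw.2.2 (desc_of_child hc ha hd hD)⟩) hclimb w ⟨hw, hwy, hwq⟩ hwp
  have h4 : G.dist q s₀ ≤ G.dist q w' + G.dist w' s₀ := hc.dist_triangle
  rw [dist_comm (u := q) (v := w')] at h4
  have hmain : G.dist w s₀ < G.dist w' s₀ := by
    unfold Desc at hwp hwq'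
    omega
  refine ⟨hmain, ?_⟩
  intro v v' ha hd1 ha' hd1'
  have h5 := hclimb w ⟨hw, hwy, hwq⟩ v ha hd1
  have h6 : Desc G r v' q := desc_of_child hc ha'.symm hd1'.symm hwq'
  have h7 : G.dist q s₀ ≤ G.dist q v' + G.dist v' s₀ := hc.dist_triangle
  rw [dist_comm (u := q) (v := v')] at h7
  unfold Desc at hwp hwq' h6
  omega

/-- Case M: the ends of the special non-tree edge lie on the last two levels. -/
theorem caseM [Finite V] [DecidableEq V] (hc : G.Connected) (hpar : IsPar G r par)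
    (hdeg : ∀ v : V, ∃ u u', u ≠ u' ∧ G.Adj v u ∧ G.Adj v u')
    {S : Finset V} (hr : r ∈ S) (hS : ∀ p q, NT G r par p q → p ∈ S)
    (hNC : ∀ p q q', NT G r par p q → NT G r par p q' → q = q') {x y : V}
    (hyx : NT G r par y x) (hdxy : G.dist r x + 1 = G.dist r y)
    (hmax : ∀ w, G.dist r w ≤ G.dist r y) {s₀ : V} (hs₀ : s₀ ∈ S) (hs₀x : s₀ ≠ x)
    (hs₀y : s₀ ≠ y) (hne₀ : G.dist x s₀ ≠ G.dist (par y) s₀) :
    IsMixedResolving G (S.erase x) := by
  have hry : r ≠ y := by
    rintro rfl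
    simp at hdxy
  obtain ⟨hax, hdx'⟩ := hpar y hry.symm
  have hxx' : x ≠ par y := fun h => hyx.2.1 ⟨hry.symm, h.symm⟩
  have hdd : G.dist r x = G.dist r (par y) := by omega
  have hrx : r ≠ x := by
    rintro rfl
    have : G.dist r (par y) = 0 := by rw [← hdd]; simp
    exact hxx' (hc.dist_eq_zero_iff.mp this)
  -- neighbours of `y`
  have hnb : ∀ u, G.Adj y u → u = x ∨ u = par y := by
    intro u hu
    by_cases h : par y = u
    · exact Or.inr h.symm
    · exact Or.inl (hNC _ _ _ (nt_of_not_par hpar hu (hmax u) h) hyx)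
  have hs₀' : s₀ ∈ S.erase x := Finset.mem_erase.mpr ⟨hs₀x, hs₀⟩
  have hS' : ∀ p q, NT G r par p q → p ≠ x → p ∈ S.erase x :=
    fun p q h hp => Finset.mem_erase.mpr ⟨hp, hS _ _ h⟩
  have hC1 : ∀ w, ∃ s ∈ S.erase x, Desc G r w s := by
    intro w
    obtain ⟨l, hl, hch, u, hu⟩ := exists_leaf hc hpar hdeg w
    refine ⟨l, hS' _ _ hu ?_, hl⟩
    rintro rfl
    have := hch y hyx.1.symm
    omega
  have hXc : ∀ p c, p = y → G.Adj p c → G.dist r c = G.dist r p + 1 → c = y := by
    rintro p c rfl _ h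
    have := hmax c
    omega
  -- the exceptional pairs
  have hexc : ∀ w w', w ≠ w' → G.dist r w = G.dist r w' →
      (∃ s ∈ S.erase x, Delta G r w w' s) ∨
      (Theta G r S x y w ∧ Theta G r S x y w' ∧ w ≠ y ∧ w' ≠ y ∧ 
        ((Desc G r w x ∧ ¬ Desc G r w (par y) ∧ Desc G r w' (par y) ∧ ¬ Desc G r w' x) ∨
         (Desc G r w' x ∧ ¬ Desc G r w' (par y) ∧ Desc G r w (par y) ∧ ¬ Desc G r w x))) := by
    intro w w' hne hd
    by_cases hex : ∃ s ∈ S.erase x, Delta G r w w' s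
    · exact Or.inl hex
    right
    have hiff : ∀ s ∈ S.erase x, (Desc G r w s ↔ Desc G r w' s) := by
      intro s hs
      by_contra h
      apply hex
      refine ⟨s, hs, ?_⟩
      unfold Delta
      tauto
    -- no common descendant other than `y`
    have hcom : ∀ p, Desc G r w p → Desc G r w' p → p = y := by
      intro p hp hp'
      by_contra hpy
      obtain ⟨p', p₁, hpX, hnt, hdp, hD⟩ := merge hc hpar (fun v => v = y) hXc hne hd
        ⟨p, hpy, hp, hp'⟩
      apply hex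
      refine ⟨p₁, hS' _ _ hnt.symm ?_, hD⟩
      rintro rfl
      exact hpX (hNC _ _ _ hnt.symm hyx.symm)
    obtain ⟨s, hs, hsD⟩ := hC1 w
    have hsy : s = y := hcom s hsD ((hiff s hs).mp hsD)
    subst hsy
    have hsD' : Desc G r w' s := (hiff s hs).mp hsD
    have hwy : w ≠ s := by
      rintro rfl
      exact hne (eq_of_desc hc hsD' hd.symm).symm
    have hwy' : w' ≠ s := by
      rintro rfl
      exact hne (eq_of_desc hc hsD hd)
    have hT : Theta G r S x s w := by
      intro t ht hD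
      by_cases htx : t = x
      · exact Or.inl htx
      · have ht' : t ∈ S.erase x := Finset.mem_erase.mpr ⟨htx, ht⟩
        exact Or.inr (hcom t hD ((hiff t ht').mp hD))
    have hT' : Theta G r S x s w' := by
      intro t ht hD
      by_cases htx : t = x
      · exact Or.inl htx
      · have ht' : t ∈ S.erase x := Finset.mem_erase.mpr ⟨htx, ht⟩
        exact Or.inr (hcom t ((hiff t ht').mpr hD) hD)
    refine ⟨hT, hT', hwy, hwy', ?_⟩
    have hxs : x ≠ s := by rintro rfl; omega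
    have hps : par s ≠ s := by
      intro h
      rw [h] at hdx'
      omega
    obtain ⟨p, hp, -, hDp⟩ := desc_parent hc hsD hwy
    obtain ⟨p', hp', -, hDp'⟩ := desc_parent hc hsD' hwy'
    rcases hnb p hp with rfl | rfl <;> rcases hnb p' hp' with rfl | rfl
    · exact absurd (hcom _ hDp hDp') hxs
    · exact Or.inl ⟨hDp, fun h => hps (hcom _ h hDp'), hDp', fun h => hxs (hcom _ hDp h)⟩
    · exact Or.inr ⟨hDp', fun h => hps (hcom _ hDp h), hDp, fun h => hxs (hcom _ h hDp')⟩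
    · exact absurd (hcom _ hDp hDp') hps
  -- `s₀` resolves the exceptional pairs
  have hres : ∀ w w', G.dist r w = G.dist r w' → Theta G r S x y w → Theta G r S x y w' →
      w ≠ y → w' ≠ y → Desc G r w x → ¬ Desc G r w (par y) → Desc G r w' (par y) →
      ¬ Desc G r w' x → G.dist w s₀ ≠ G.dist w' s₀ ∧ 
      ∀ v v', G.Adj w v → G.dist r v + 1 = G.dist r w → G.Adj w' v' →
        G.dist r v' + 1 = G.dist r w' →
        min (G.dist v s₀) (G.dist w s₀) ≠ min (G.dist v' s₀) (G.dist w' s₀) := by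
    intro w w' hd hw hw' hwy hwy' h1 h2 h3 h4
    rcases lt_or_gt_of_ne hne₀ with hlt | hlt
    · obtain ⟨e1, e2⟩ := caseM_aux hc hpar hdeg hS hNC hyx hdxy hmax hs₀ hs₀x hs₀y hyx.1 hax hdxy
        hdx' hnb hlt hd hw hwy h1 h2 h3
      exact ⟨e1.ne, fun v v' ha hv ha' hv' => (e2 v v' ha hv ha' hv').ne⟩
    · obtain ⟨e1, e2⟩ := caseM_aux hc hpar hdeg hS hNC hyx hdxy hmax hs₀ hs₀x hs₀y hax hyx.1 hdx'
        hdxy (fun u hu => (hnb u hu).symm) hlt hd.symm hw' hwy' h3 h4 h1
      exact ⟨e1.ne', fun v v' ha hv ha' hv' => (e2 v' v ha' hv' ha hv).ne'⟩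
  refine assemble hc (Finset.mem_erase.mpr ⟨hrx, hr⟩) x x ?_ ?_ ?_ ?_ ?_
  · intro w w' hne hd
    rcases hexc w w' hne hd with ⟨s, hs, h⟩ | ⟨hw, hw', hwy, hwy', ⟨h1, h2, h3, h4⟩ | ⟨h1, h2, h3, h4⟩⟩
    · exact ⟨s, hs, h.ne hc hd⟩
    · exact ⟨s₀, hs₀', (hres w w' hd hw hw' hwy hwy' h1 h2 h3 h4).1⟩
    · exact ⟨s₀, hs₀', (hres w' w hd.symm hw' hw hwy' hwy h1 h2 h3 h4).1.symm⟩
  · intro t w u ha hd ht
    obtain ⟨l, hl, hD⟩ := hC1 u
    exact ⟨l, hl, vert_ne hc hD hd ht⟩
  · intro w u ha hd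
    have h := nt_of_horiz hpar ha hd
    refine Or.inl ⟨hS' _ _ h ?_, hS' _ _ h.symm ?_⟩
    · rintro rfl
      have := hNC _ _ _ h hyx.symm
      subst this
      omega
    · rintro rfl
      have := hNC _ _ _ h.symm hyx.symm
      subst this
      omega
  · intro w u w' u' ha hd ha' hd' hww hne
    have hduu : G.dist r u = G.dist r u' := by omega
    rcases hexc u u' hne hduu with ⟨s, hs, h⟩ | ⟨hw, hw', hwy, hwy', ⟨h1, h2, h3, h4⟩ | ⟨h1, h2, h3, h4⟩⟩
    · exact ⟨s, hs, h.edge_ne hc hd hd' hww⟩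
    · exact ⟨s₀, hs₀', (hres u u' hduu hw hw' hwy hwy' h1 h2 h3 h4).2 w w' ha.symm hd.symm
        ha'.symm hd'.symm⟩
    · exact ⟨s₀, hs₀', ((hres u' u hduu.symm hw' hw hwy' hwy h1 h2 h3 h4).2 w' w ha'.symm hd'.symm
        ha.symm hd.symm).symm⟩
  · intro w w' u hne ha hd ha' hd'
    by_cases huy : u = y
    · subst huy
      refine ⟨s₀, hs₀', ?_⟩
      obtain ⟨z, hz, hdz⟩ := exists_step hc hs₀y.symm
      rcases hnb z hz with rfl | rfl <;> rcases hnb w ha.symm with rfl | rfl <;>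
        rcases hnb w' ha'.symm with rfl | rfl <;>
        first | exact absurd rfl hne | skip
      all_goals
        have e1 := dist_le_succ' hc ha s₀
        have e2 := dist_le_succ' hc ha.symm s₀
        have e3 := dist_le_succ' hc ha' s₀
        have e4 := dist_le_succ' hc ha'.symm s₀
        omega
    · refine same_bottom hc hpar (fun p hp hdp => hS' _ _ hp.symm ?_) hne ha hd ha' hd'
      rintro rfl
      exact huy (hNC _ _ _ hp.symm hyx.symm)

end Pool.Agent.Helper18.MixedDim
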