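import Pool.Agent.Helper18.MixedDim3

/-!
# Mixed metric dimension: counting, and the recognition of cycles
-/

set_option autoImplicit false

open SimpleGraph

namespace Pool.Agent.Helper18.MixedDim

variable {V : Type*} {G : SimpleGraph V}

/-- In a 2-connected graph every vertex has two neighbours. -/
lemma TwoConnected.two_nbrs [Fintype V] (h : TwoConnected G) (v : V) :
    ∃ u u', u ≠ u' ∧ G.Adj v u ∧ G.Adj v u' := by
  classical
  obtain ⟨h3, hc, h2⟩ := h
  have : Nontrivial V := Fintype.one_lt_card_iff_nontrivial.mp (by omega)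
  obtain ⟨t, ht⟩ := exists_ne v
  obtain ⟨u, hu, -⟩ := exists_step hc ht.symm
  -- a third vertex
  obtain ⟨t', ht'⟩ : ∃ t', t' ∉ ({v, u} : Finset V) := by
    by_contra hcon
    push Not at hcon
    have : (Finset.univ : Finset V) ⊆ {v, u} := fun x _ => hcon x
    have h1 := Finset.card_le_card this
    have h2 := Finset.card_le_two (a := v) (b := u)
    rw [Finset.card_univ] at h1
    omega
  simp only [Finset.mem_insert, Finset.mem_singleton, not_or] at ht'
  have hvu : v ≠ u := hu.ne
  have hc' := h2 u
  obtain ⟨u', hu', -⟩ := exists_step (G := G.induce ({u}ᶜ : Set V)) hc'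
    (w := ⟨v, hvu⟩) (s := ⟨t', ht'.2⟩) (fun h => ht'.1 (Subtype.ext_iff.mp h).symm)
  exact ⟨u, u'.1, fun h => u'.2 h.symm, hu, hu'⟩

/-- A connected graph on `n ≥ 3` vertices in which every vertex has exactly two neighbours is a
cycle. -/
lemma iso_cycleGraph [Fintype V] [DecidableRel G.Adj] (h3 : 3 ≤ Fintype.card V)
    (hc : G.Connected) (hdeg : ∀ v, G.degree v = 2) :
    Nonempty (G ≃g cycleGraph (Fintype.card V)) := by
  classical
  have hcyc : G.IsCycles := by
    intro v _
    rw [← hdeg v, ← card_neighborSet_eq_degree, Set.ncard_eq_toFinset_card', Set.toFinset_card]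
  obtain ⟨v⟩ := hc.nonempty
  have hn : (G.neighborSet v).Nonempty := by
    rw [Set.nonempty_iff_ne_empty]
    intro h
    have := hdeg v
    rw [← card_neighborSet_eq_degree] at this
    simp [h] at this
  obtain ⟨p, hp, hverts⟩ := hcyc.exists_cycle_toSubgraph_verts_eq_connectedComponentSupp
    (c := G.connectedComponentMk v) rfl hn
  have hsupp : ∀ w, w ∈ p.support := by
    intro w
    rw [← p.mem_verts_toSubgraph, hverts]
    exact ConnectedComponent.eq.mpr (hc.preconnected w v)
  have hham : p.IsHamiltonianCycle := by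
    refine ⟨hp, ?_⟩
    refine (Walk.isCycle_iff_isPath_tail_and_le_length.mp hp).1.isHamiltonian_of_mem ?_
    intro w
    rw [Walk.support_tail_of_not_nil _ hp.not_nil]
    have := hsupp w
    rw [← Walk.cons_tail_support, List.mem_cons] at this
    rcases this with rfl | h
    · exact Walk.end_mem_tail_support hp.not_nil
    · exact h
  have hlen := hham.length_eq
  obtain ⟨f⟩ := (cycleGraph_isContained_iff (G := G) (n := Fintype.card V) (by omega)).mpr
    ⟨v, p, hp, hlen⟩
  have hinj : Function.Injective f.toHom := f.injective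
  have hbij : Function.Bijective f.toHom :=
    (Fintype.bijective_iff_injective_and_card _).mpr ⟨hinj, by simp⟩
  have hadj : ∀ a b, (cycleGraph (Fintype.card V)).Adj a b → G.Adj (f.toHom a) (f.toHom b) :=
    fun a b h => f.toHom.map_adj h
  have hdeg' : ∀ a, (cycleGraph (Fintype.card V)).degree a = 2 := by
    obtain ⟨n, hn⟩ : ∃ n, Fintype.card V = n + 3 := ⟨Fintype.card V - 3, by omega⟩
    rw [hn]
    intro a
    exact cycleGraph_degree_three_le
  have hrefl : ∀ a b, G.Adj (f.toHom a) (f.toHom b) → (cycleGraph (Fintype.card V)).Adj a b := by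
    intro a b h
    have hsub : ((cycleGraph (Fintype.card V)).neighborFinset a).image f.toHom ⊆
        G.neighborFinset (f.toHom a) := by
      intro x hx
      rw [Finset.mem_image] at hx
      obtain ⟨c, hc, rfl⟩ := hx
      rw [mem_neighborFinset] at hc ⊢
      exact hadj a c hc
    have heq := Finset.eq_of_subset_of_card_le hsub (by
      rw [Finset.card_image_of_injective _ hinj, card_neighborFinset_eq_degree,
        card_neighborFinset_eq_degree, hdeg, hdeg'])
    have hb : f.toHom b ∈ G.neighborFinset (f.toHom a) := by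
      rw [mem_neighborFinset]; exact h
    rw [← heq, Finset.mem_image] at hb
    obtain ⟨c, hc, hcb⟩ := hb
    rw [mem_neighborFinset] at hc
    rw [← hinj hcb]
    exact hc
  let e : Fin (Fintype.card V) ≃ V := Equiv.ofBijective f.toHom hbij
  exact ⟨(RelIso.mk e (fun {a b} => ⟨hrefl a b, hadj a b⟩) :
    cycleGraph (Fintype.card V) ≃g G).symm⟩

/-- The number of ordered non-tree edges. -/
lemma card_nt [Fintype V] [DecidableEq V] [DecidableRel G.Adj] {r : V} {par : V → V}
    [DecidableRel (NT G r par)] (hpar : IsPar G r par) :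
    (Finset.univ.filter fun p : V × V => NT G r par p.1 p.2).card + 2 * (Fintype.card V - 1) =
      2 * G.edgeFinset.card := by
  classical
  have hA : (Finset.univ.filter fun p : V × V => G.Adj p.1 p.2).card = 2 * G.edgeFinset.card := by
    rw [← G.sum_degrees_eq_twice_card_edges, Finset.card_filter, Fintype.sum_prod_type]
    refine Finset.sum_congr rfl fun v _ => ?_
    rw [← card_neighborFinset_eq_degree, neighborFinset_eq_filter, Finset.card_filter]
  have hT1 : (Finset.univ.filter fun p : V × V => p.1 ≠ r ∧ par p.1 = p.2).card =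
      Fintype.card V - 1 := by
    have : (Finset.univ.filter fun p : V × V => p.1 ≠ r ∧ par p.1 = p.2) =
        (Finset.univ.erase r).image fun v => (v, par v) := by
      ext ⟨a, b⟩
      simp only [Finset.mem_filter, Finset.mem_univ, true_and, Finset.mem_image,
        Finset.mem_erase, and_true, Prod.mk.injEq]
      constructor
      · rintro ⟨h1, h2⟩
        exact ⟨a, h1, rfl, h2⟩
      · rintro ⟨x, h1, rfl, rfl⟩
        exact ⟨h1, rfl⟩
    rw [this, Finset.card_image_of_injective _ (fun a b h => (Prod.mk.inj h).1),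
      Finset.card_erase_of_mem (Finset.mem_univ r), Finset.card_univ]
  have hT2 : (Finset.univ.filter fun p : V × V => p.2 ≠ r ∧ par p.2 = p.1).card =
      Fintype.card V - 1 := by
    have : (Finset.univ.filter fun p : V × V => p.2 ≠ r ∧ par p.2 = p.1) =
        (Finset.univ.erase r).image fun v => (par v, v) := by
      ext ⟨a, b⟩
      simp only [Finset.mem_filter, Finset.mem_univ, true_and, Finset.mem_image,
        Finset.mem_erase, and_true, Prod.mk.injEq]
      constructor
      · rintro ⟨h1, h2⟩
        exact ⟨b, h1, h2, rfl⟩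
      · rintro ⟨x, h1, rfl, rfl⟩
        exact ⟨h1, rfl⟩
    rw [this, Finset.card_image_of_injective _ (fun a b h => (Prod.mk.inj h).2),
      Finset.card_erase_of_mem (Finset.mem_univ r), Finset.card_univ]
  have hdisj : Disjoint (Finset.univ.filter fun p : V × V => p.1 ≠ r ∧ par p.1 = p.2)
      (Finset.univ.filter fun p : V × V => p.2 ≠ r ∧ par p.2 = p.1) := by
    rw [Finset.disjoint_left]
    rintro ⟨a, b⟩ h1 h2
    simp only [Finset.mem_filter, Finset.mem_univ, true_and] at h1 h2
    have e1 := (hpar a h1.1).2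
    have e2 := (hpar b h2.1).2
    rw [h1.2] at e1
    rw [h2.2] at e2
    omega
  have hdisj2 : Disjoint (Finset.univ.filter fun p : V × V => NT G r par p.1 p.2)
      ((Finset.univ.filter fun p : V × V => p.1 ≠ r ∧ par p.1 = p.2) ∪
      (Finset.univ.filter fun p : V × V => p.2 ≠ r ∧ par p.2 = p.1)) := by
    rw [Finset.disjoint_left]
    rintro ⟨a, b⟩ h1 h2
    simp only [Finset.mem_filter, Finset.mem_univ, true_and, Finset.mem_union] at h1 h2
    exact h2.elim h1.2.1 h1.2.2
  have hunion : (Finset.univ.filter fun p : V × V => NT G r par p.1 p.2) ∪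
      ((Finset.univ.filter fun p : V × V => p.1 ≠ r ∧ par p.1 = p.2) ∪
      (Finset.univ.filter fun p : V × V => p.2 ≠ r ∧ par p.2 = p.1)) =
      Finset.univ.filter fun p : V × V => G.Adj p.1 p.2 := by
    ext ⟨a, b⟩
    simp only [Finset.mem_filter, Finset.mem_univ, true_and, Finset.mem_union]
    constructor
    · rintro (h | h | h)
      · exact h.1
      · rw [← h.2]; exact (hpar a h.1).1
      · rw [← h.2]; exact (hpar b h.1).1.symm
    · intro h
      by_cases h1 : a ≠ r ∧ par a = b
      · exact Or.inr (Or.inl h1)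
      · by_cases h2 : b ≠ r ∧ par b = a
        · exact Or.inr (Or.inr h2)
        · exact Or.inl ⟨h, h1, h2⟩
  rw [← hA, ← hunion, Finset.card_union_of_disjoint hdisj2, Finset.card_union_of_disjoint hdisj,
    hT1, hT2]
  omega

/-- The main theorem, existence form. -/
theorem main [Fintype V] (h : TwoConnected G)
    (hcyc : ¬ Nonempty (G ≃g cycleGraph (Fintype.card V))) :
    ∃ S : Finset V, IsMixedResolving G S ∧ (S.card : ℤ) ≤ 2 * cyclomatic G := by
  classical
  have hdeg := h.two_nbrs
  obtain ⟨h3, hc, h2⟩ := h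
  obtain ⟨r⟩ := hc.nonempty
  obtain ⟨par, hpar⟩ := exists_par hc r
  have hcard := card_nt (r := r) hpar
  set N := Finset.univ.filter fun p : V × V => NT G r par p.1 p.2 with hN
  have hmemN : ∀ p q, (p, q) ∈ N ↔ NT G r par p q := by
    intro p q
    simp [hN]
  have hcyclo : 2 * cyclomatic G = N.card := by
    unfold cyclomatic
    rw [Nat.card_eq_fintype_card, ← edgeFinset_card]
    omega
  rw [hcyclo]
  set S : Finset V := insert r (N.image Prod.fst) with hSdef
  have hr : r ∈ S := Finset.mem_insert_self _ _
  have hS : ∀ p q, NT G r par p q → p ∈ S := by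
    intro p q hpq
    exact Finset.mem_insert_of_mem (Finset.mem_image.mpr ⟨(p, q), (hmemN p q).mpr hpq, rfl⟩)
  have hScard : S.card ≤ (N.image Prod.fst).card + 1 := Finset.card_insert_le _ _
  by_cases hinj : Set.InjOn Prod.fst (N : Set (V × V))
  swap
  · have hlt : (N.image Prod.fst).card < N.card := by
      refine lt_of_le_of_ne Finset.card_image_le fun h => hinj ?_
      exact Finset.card_image_iff.mp h
    exact ⟨S, base hc hpar hdeg hr hS, by exact_mod_cast (by omega : S.card ≤ N.card)⟩
  have hNC : ∀ p q q', NT G r par p q → NT G r par p q' → q = q' := by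
    intro p q q' h1 h2
    have := hinj (Finset.mem_coe.mpr ((hmemN p q).mpr h1)) (Finset.mem_coe.mpr
      ((hmemN p q').mpr h2)) rfl
    exact (Prod.mk.inj this).2
  have hScard' : S.card ≤ N.card + 1 := hScard.trans (Nat.add_le_add_right Finset.card_image_le 1)
  -- a vertex of maximal depth
  obtain ⟨y, -, hmax'⟩ := Finset.exists_max_image Finset.univ (fun v => G.dist r v) ⟨r, Finset.mem_univ r⟩
  have hmax : ∀ w, G.dist r w ≤ G.dist r y := fun w => hmax' w (Finset.mem_univ w)
  obtain ⟨l, hl, hch, x, hyx⟩ := exists_leaf hc hpar hdeg y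
  have hly := desc_of_max hc hmax hl
  subst hly
  -- there is another non-tree edge
  have hEdge : ∃ p q, NT G r par p q ∧ p ≠ x ∧ p ≠ l := by
    by_contra hcon
    push Not at hcon
    have hsub : N.image Prod.fst ⊆ {x, l} := by
      intro p hp
      rw [Finset.mem_image] at hp
      obtain ⟨⟨p', q⟩, hpq, rfl⟩ := hp
      rw [hmemN] at hpq
      rw [Finset.mem_insert, Finset.mem_singleton]
      by_cases hpx : p' = x
      · exact Or.inl hpx
      · exact Or.inr (hcon p' q hpq hpx)
    have hN2 : N.card ≤ 2 := by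
      rw [← Finset.card_image_of_injOn hinj]
      exact (Finset.card_le_card hsub).trans Finset.card_le_two
    have hsum := G.sum_degrees_eq_twice_card_edges
    have hge : ∀ v, 2 ≤ G.degree v := by
      intro v
      obtain ⟨u, u', hne, hu, hu'⟩ := hdeg v
      rw [← card_neighborFinset_eq_degree]
      have : ({u, u'} : Finset V) ⊆ G.neighborFinset v := by
        intro z hz
        rw [Finset.mem_insert, Finset.mem_singleton] at hz
        rw [mem_neighborFinset]
        rcases hz with rfl | rfl
        · exact hu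
        · exact hu'
      have h' := Finset.card_le_card this
      rwa [Finset.card_pair hne] at h'
    apply hcyc
    refine iso_cycleGraph h3 hc fun v => ?_
    by_contra hv
    have hlt : ∑ _v : V, 2 < ∑ v, G.degree v :=
      Finset.sum_lt_sum (fun v _ => hge v) ⟨v, Finset.mem_univ v, lt_of_le_of_ne (hge v) (Ne.symm hv)⟩
    rw [Finset.sum_const, Finset.card_univ, smul_eq_mul] at hlt
    omega
  have hxS : x ∈ S := hS _ _ hyx.symm
  have hlS : l ∈ S := hS _ _ hyx
  have hfin : ∀ z ∈ S, (((S.erase z).card : ℕ) : ℤ) ≤ (N.card : ℤ) := by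
    intro z hz
    have := Finset.card_erase_add_one hz
    exact_mod_cast (by omega : (S.erase z).card ≤ N.card)
  rcases dep_cases (r := r) hc hyx.1 with hd | hd | hd
  · -- case M
    obtain ⟨s₀, hs₀, hs₀x, hs₀y, hne⟩ := existsM hc hpar hdeg h2 hr hS hNC hyx hd hmax hEdge
    exact ⟨S.erase x, caseM hc hpar hdeg hr hS hNC hyx hd hmax hs₀ hs₀x hs₀y hne, hfin x hxS⟩
  · have := hmax x
    omega
  · -- case H
    obtain ⟨s₀, hs₀, hs₀x, hs₀y, hne⟩ := existsH hc hpar hdeg h2 hr hS hNC hyx.symm hd
      (by rw [hd]; exact hmax) hEdge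
    rcases lt_or_gt_of_ne hne with hlt | hlt
    · exact ⟨S.erase x, caseH hc hpar hdeg hr hS hNC hyx hd.symm hmax hs₀ hs₀x hlt, hfin x hxS⟩
    · exact ⟨S.erase l, caseH hc hpar hdeg hr hS hNC hyx.symm hd (by rw [hd]; exact hmax) hs₀
        hs₀y hlt, hfin l hlS⟩

end Pool.Agent.Helper18.MixedDim
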